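import Mathlib

/-!
# Groups generated by three involutions from a three-branch coloured tree

Each group `G_φ` of the question is primitive, for every `k` and every admissible colouring.  It
is the alternating or the symmetric group for the following infinite families.

The commutators used are local.  Let `C` be the component of the central vertex in the forest of
the edges of the first two colours; it is a path with `r + 2` vertices if the first `r` edges of
`P_0` have two colours.  Under the assumptions some power `t` of the product of the two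
involutions is trivial outside `C` and reverses `C`, or is a suitable rotation on `C`.  The third
involution `z` moves only three vertices of `C`, and `(t z t z)^2` or `(t z t⁻¹ z)^5` is a
3-cycle; then Jordan's theorem applies.
-/

namespace Pool.Agent.Results.MP_db1bc6_al.Primitive

open Equiv MulAction
open scoped Pointwise

/-- The vertices of the tree `T_k`: `none` is the common endpoint `1` of the three paths and
`some (t, j)` is the `(j + 1)`-st further vertex of the path `P_t`. -/
abbrev V (k : ℕ) := Option (ZMod 3 × Fin k)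

/-- The vertex before `some (t, j)` on the path `P_t`. -/
def par {k : ℕ} (t : ZMod 3) (j : Fin k) : V k :=
  if j.val = 0 then none else some (t, ⟨j.val - 1, by omega⟩)

/-- The involution `ρ_c`.  The edge number `j + 1` of `P_t` joins `par t j` to `some (t, j)` and
has the colour `a j + t`; so it has the colour `c` exactly when `t = c - a j`, and `ρ_c` is the
product of the transpositions of the ends of these edges. -/
def rho (k : ℕ) (a : ℕ → ZMod 3) (c : ZMod 3) : Perm (V k) :=
  ((List.finRange k).map fun j : Fin k => swap (par (c - a j) j) (some (c - a j, j))).prod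

/-- The group generated by the three involutions. -/
def G (k : ℕ) (a : ℕ → ZMod 3) : Subgroup (Perm (V k)) :=
  Subgroup.closure (Set.range (rho k a))

lemma prod_apply_of_fix {α : Type*} (l : List (Perm α)) (v : α) (h : ∀ g ∈ l, g v = v) :
    l.prod v = v := by
  induction l with
  | nil => rfl
  | cons g l ih =>
    rw [List.prod_cons, Perm.mul_apply, ih (fun g' hg' => h g' (List.mem_cons_of_mem _ hg')),
      h g List.mem_cons_self]

lemma prod_map_apply {α β : Type*} (l : List β) (hl : l.Nodup) (f : β → Perm α) (j : β)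
    (hj : j ∈ l) (v : α) (h1 : ∀ i ∈ l, i ≠ j → f i v = v)
    (h2 : ∀ i ∈ l, i ≠ j → f i (f j v) = f j v) : (l.map f).prod v = f j v := by
  obtain ⟨s, t, rfl⟩ := List.append_of_mem hj
  have hnd : j ∉ s ∧ j ∉ t := by
    rw [List.nodup_append] at hl
    obtain ⟨_, h4, h5⟩ := hl
    refine ⟨fun h => h5 j h j List.mem_cons_self rfl, ?_⟩
    exact (List.nodup_cons.1 h4).1
  rw [List.map_append, List.map_cons, List.prod_append, List.prod_cons, Perm.mul_apply,
    Perm.mul_apply]
  rw [prod_apply_of_fix (t.map f) v, prod_apply_of_fix (s.map f) (f j v)]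
  · intro g hg
    obtain ⟨i, hi, rfl⟩ := List.mem_map.1 hg
    refine h2 i (by simp [hi]) (fun h => hnd.1 (h ▸ hi))
  · intro g hg
    obtain ⟨i, hi, rfl⟩ := List.mem_map.1 hg
    refine h1 i (by simp [hi]) (fun h => hnd.2 (h ▸ hi))

variable {k : ℕ} {a : ℕ → ZMod 3}

lemma par_zero {t : ZMod 3} {j : Fin k} (h : j.val = 0) : par t j = none := by
  simp [par, h]

lemma par_succ {t : ZMod 3} {j i : Fin k} (h : j.val = i.val + 1) : par t j = some (t, i) := by
  have : j.val ≠ 0 := by omega
  simp only [par, this, if_false, Option.some.injEq, Prod.mk.injEq, true_and]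
  ext; simp [h]

lemma par_ne (t : ZMod 3) (j : Fin k) (t' : ZMod 3) : par t j ≠ some (t', j) := by
  unfold par
  split
  · simp
  · intro h
    simp only [Option.some.injEq, Prod.mk.injEq] at h
    have := congrArg Fin.val h.2
    simp at this
    omega

lemma swap_fix (ha : ∀ j, j + 1 < k → a j ≠ a (j + 1)) (t : ZMod 3) (i j : Fin k) (hij : i ≠ j) :
    swap (par (a j + t - a i) i) (some (a j + t - a i, i)) (par t j) = par t j ∧
    swap (par (a j + t - a i) i) (some (a j + t - a i, i)) (some (t, j)) = some (t, j) := by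
  have hne : i.val ≠ j.val := fun h => hij (Fin.ext h)
  constructor
  · apply swap_apply_of_ne_of_ne
    · unfold par
      split_ifs with h1 h2 h2
      · omega
      · simp
      · simp
      · intro h
        simp only [Option.some.injEq, Prod.mk.injEq, Fin.mk.injEq] at h
        omega
    · unfold par
      split_ifs with h1
      · simp
      · intro h
        simp only [Option.some.injEq, Prod.mk.injEq] at h
        have h3 := congrArg Fin.val h.2
        simp only at h3
        have h4 := ha i.val (by omega)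
        have h5 : i.val + 1 = j.val := by omega
        rw [h5] at h4
        apply h4
        have h6 := h.1
        linear_combination h6
  · apply swap_apply_of_ne_of_ne
    · unfold par
      split_ifs with h1
      · simp
      · intro h
        simp only [Option.some.injEq, Prod.mk.injEq] at h
        have h3 := congrArg Fin.val h.2
        simp only at h3
        have h4 := ha j.val (by omega)
        have h5 : j.val + 1 = i.val := by omega
        rw [h5] at h4
        apply h4
        have h6 := h.1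
        linear_combination -h6
    · intro h
      simp only [Option.some.injEq, Prod.mk.injEq] at h
      exact hij h.2.symm

lemma rho_par (ha : ∀ j, j + 1 < k → a j ≠ a (j + 1)) (t : ZMod 3) (j : Fin k) :
    rho k a (a j + t) (par t j) = some (t, j) := by
  have key := prod_map_apply (List.finRange k) (List.nodup_finRange k)
    (fun i => swap (par (a j + t - a i) i) (some (a j + t - a i, i))) j (List.mem_finRange j)
    (par t j) (fun i _ hij => (swap_fix ha t i j hij).1) ?_
  · unfold rho
    rw [key]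
    simp
  · intro i _ hij
    simp only [add_sub_cancel_left, swap_apply_left]
    exact (swap_fix ha t i j hij).2

lemma rho_some (ha : ∀ j, j + 1 < k → a j ≠ a (j + 1)) (t : ZMod 3) (j : Fin k) :
    rho k a (a j + t) (some (t, j)) = par t j := by
  have key := prod_map_apply (List.finRange k) (List.nodup_finRange k)
    (fun i => swap (par (a j + t - a i) i) (some (a j + t - a i, i))) j (List.mem_finRange j)
    (some (t, j)) (fun i _ hij => (swap_fix ha t i j hij).2) ?_
  · unfold rho
    rw [key]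
    simp
  · intro i _ hij
    simp only [add_sub_cancel_left, swap_apply_right]
    exact (swap_fix ha t i j hij).1

/-- `ρ_c` fixes a non-central vertex whose two edges do not have the colour `c`. -/
lemma rho_fix (c t : ZMod 3) (j : Fin k) (h1 : c ≠ a j + t)
    (h2 : j.val + 1 < k → c ≠ a (j.val + 1) + t) :
    rho k a c (some (t, j)) = some (t, j) := by
  unfold rho
  apply prod_apply_of_fix
  intro g hg
  obtain ⟨i, -, rfl⟩ := List.mem_map.1 hg
  apply swap_apply_of_ne_of_ne
  · unfold par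
    split_ifs with h3
    · simp
    · intro h
      simp only [Option.some.injEq, Prod.mk.injEq] at h
      have h4 := congrArg Fin.val h.2
      simp only at h4
      have h5 : j.val + 1 = i.val := by omega
      apply h2 (by omega)
      rw [h5, h.1]; ring
  · intro h
    simp only [Option.some.injEq, Prod.mk.injEq] at h
    apply h1
    rw [h.2, h.1]; ring

lemma rho_none (ha : ∀ j, j + 1 < k → a j ≠ a (j + 1)) (hk : 0 < k) (c : ZMod 3) :
    rho k a c none = some (c - a 0, ⟨0, hk⟩) := by
  have h := rho_par ha (c - a 0) ⟨0, hk⟩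
  rw [par_zero rfl] at h
  simpa using h

lemma rho_mem (c : ZMod 3) : rho k a c ∈ G k a := Subgroup.subset_closure ⟨c, rfl⟩

lemma reach (ha : ∀ j, j + 1 < k → a j ≠ a (j + 1)) (t : ZMod 3) (n : ℕ) (hn : n < k) :
    ∃ g : G k a, g • (none : V k) = some (t, ⟨n, hn⟩) := by
  induction n with
  | zero =>
    refine ⟨⟨rho k a (a 0 + t), rho_mem _⟩, ?_⟩
    change rho k a (a 0 + t) none = _
    rw [rho_none ha hn]; simp
  | succ n ih =>
    obtain ⟨g, hg⟩ := ih (by omega)
    refine ⟨⟨rho k a (a (n + 1) + t), rho_mem _⟩ * g, ?_⟩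
    rw [mul_smul, hg]
    change rho k a (a (n + 1) + t) _ = _
    have h := rho_par ha t ⟨n + 1, hn⟩
    rw [par_succ (i := ⟨n, by omega⟩) rfl] at h
    exact h

lemma pretransitive (ha : ∀ j, j + 1 < k → a j ≠ a (j + 1)) : IsPretransitive (G k a) (V k) := by
  have h : ∀ x : V k, ∃ g : G k a, g • (none : V k) = x := by
    rintro (_ | ⟨t, n, hn⟩)
    · exact ⟨1, by simp⟩
    · exact reach ha t n hn
  constructor
  intro x y
  obtain ⟨g, rfl⟩ := h x
  obtain ⟨g', rfl⟩ := h y
  exact ⟨g' * g⁻¹, by rw [mul_smul, inv_smul_smul]⟩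

lemma third (x y : ZMod 3) : ∃ c : ZMod 3, c ≠ x ∧ c ≠ y := by
  revert x y; decide

lemma all_colours (c d : ZMod 3) (hd : d ≠ 0) (x : ZMod 3) : x = c ∨ x = c - d ∨ x = c - d - d := by
  revert c d x; decide

theorem primitive (hk : 0 < k) (ha : ∀ j, j + 1 < k → a j ≠ a (j + 1)) :
    IsPreprimitive (G k a) (V k) := by
  have := pretransitive ha
  apply IsPreprimitive.of_isTrivialBlock_base (none : V k)
  intro B hB hblock
  -- if `ρ_c` maps a point of `B` into `B`, it stabilises `B`
  have hstab : ∀ (c : ZMod 3) (x : V k), x ∈ B → rho k a c x ∈ B →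
      (⟨rho k a c, rho_mem c⟩ : G k a) • B = B := by
    intro c x hx hcx
    apply hblock.smul_eq_of_nonempty
    exact ⟨rho k a c x, ⟨x, hx, rfl⟩, hcx⟩
  by_cases h : ∃ c, rho k a c none ∈ B
  · right
    obtain ⟨c, hc⟩ := h
    -- a nonzero `d` such that `ρ_{c-d}` fixes `ρ_c none`
    obtain ⟨d, hd, hfix⟩ : ∃ d : ZMod 3, d ≠ 0 ∧
        ∀ c, rho k a (c - d) (rho k a c none) = rho k a c none := by
      by_cases h2 : 1 < k
      · refine ⟨a 1 - a 0, fun h0 => ha 0 h2 (sub_eq_zero.1 h0).symm, fun c => ?_⟩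
        have hne := ha 0 h2
        rw [rho_none ha hk]
        apply rho_fix
        · intro h3
          apply hne
          have h3' : c - (a 1 - a 0) = a 0 + (c - a 0) := h3
          linear_combination h3'
        · intro _ h3
          have h3' : c - (a 1 - a 0) = a 1 + (c - a 0) := h3
          have h4 : (a 1 - a 0) = 2 * (a 0 - a 1) + 3 * (a 1 - a 0) := by ring
          have h5 : (3 : ZMod 3) = 0 := by decide
          have h6 : 2 * (a 0 - a 1) = 0 := by linear_combination h3'
          rw [h5, h6] at h4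
          apply hne
          linear_combination -h4
      · refine ⟨1, by decide, fun c => ?_⟩
        rw [rho_none ha hk]
        apply rho_fix
        · intro h3
          have h3' : c - 1 = a 0 + (c - a 0) := h3
          have : (1 : ZMod 3) = 0 := by linear_combination -h3'
          exact absurd this (by decide)
        · intro h4; simp only at h4; omega
    have step : ∀ c, rho k a c none ∈ B → (⟨rho k a c, rho_mem c⟩ : G k a) • B = B ∧
        rho k a (c - d) none ∈ B := by
      intro c hc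
      refine ⟨hstab c none hB hc, ?_⟩
      have h1 := hstab (c - d) _ hc (by rw [hfix]; exact hc)
      rw [← h1]
      exact ⟨none, hB, rfl⟩
    have hall : ∀ x, (⟨rho k a x, rho_mem x⟩ : G k a) • B = B := by
      intro x
      have s1 := step c hc
      have s2 := step _ s1.2
      have s3 := step _ s2.2
      rcases all_colours c d hd x with rfl | rfl | rfl
      · exact s1.1
      · exact s2.1
      · exact s3.1
    -- hence all of the group stabilises `B`
    have hG : ∀ g : G k a, g • B = B := by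
      rintro ⟨g, hg⟩
      have : ∀ g (hg : g ∈ Subgroup.closure (Set.range (rho k a))),
          (⟨g, hg⟩ : G k a) ∈ stabilizer (G k a) B := by
        intro g hg
        induction hg using Subgroup.closure_induction with
        | mem x hx =>
          obtain ⟨c, rfl⟩ := hx
          exact hall c
        | one => exact (stabilizer (G k a) B).one_mem
        | mul x y hx hy h1 h2 => exact (stabilizer (G k a) B).mul_mem h1 h2
        | inv x hx h1 => exact (stabilizer (G k a) B).inv_mem h1
      exact this g hg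
    rw [Set.eq_univ_iff_forall]
    intro x
    obtain ⟨g, rfl⟩ := exists_smul_eq (G k a) (none : V k) x
    rw [← hG g]
    exact ⟨none, hB, rfl⟩
  · left
    push Not at h
    have hsub : ∀ x ∈ B, x = none := by
      rintro (_ | ⟨t, j⟩) hx
      · rfl
      · exfalso
        obtain ⟨c, h1, h2⟩ := third (a j + t) (a (j.val + 1) + t)
        have h3 := hstab c _ hx (by rw [rho_fix c t j h1 (fun _ => h2)]; exact hx)
        apply h c
        rw [← h3]
        exact ⟨none, hB, rfl⟩
    intro x hx y hy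
    rw [hsub x hx, hsub y hy]

/-! ### A double transposition and a 3-cycle -/

lemma involutive (ha : ∀ j, j + 1 < k → a j ≠ a (j + 1)) (hk : 0 < k) (c : ZMod 3) (v : V k) :
    rho k a c (rho k a c v) = v := by
  rcases v with _ | ⟨t, j⟩
  · rw [rho_none ha hk]
    have h := rho_some ha (c - a 0) ⟨0, hk⟩
    rw [par_zero rfl] at h
    simpa using h
  · by_cases h1 : c = a j + t
    · subst h1
      rw [rho_some ha, rho_par ha]
    · by_cases h2 : j.val + 1 < k ∧ c = a (j.val + 1) + t
      · obtain ⟨h2, rfl⟩ := h2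
        have h3 := rho_par ha t ⟨j.val + 1, h2⟩
        rw [par_succ (i := j) rfl] at h3
        have h4 := rho_some ha t ⟨j.val + 1, h2⟩
        rw [par_succ (i := j) rfl] at h4
        simp only at h3 h4
        rw [h3, h4]
      · have h3 := rho_fix c t j h1 (fun h4 h5 => h2 ⟨h4, h5⟩)
        rw [h3, h3]


/-! ### Abstract lemmas -/

/-- The product of the two reflections of a path with `2h` vertices: its `h`-th power reverses
the path. -/
lemma path_power {α : Type*} (h : ℕ) (p : ℕ → α) (A B : Perm α)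
    (hB0 : ∀ j < h, B (p (2 * j)) = p (2 * j + 1)) (hB1 : ∀ j < h, B (p (2 * j + 1)) = p (2 * j))
    (hA0 : A (p 0) = p 0) (hAl : ∀ j, j + 1 = h → A (p (2 * j + 1)) = p (2 * j + 1))
    (hA1 : ∀ j, j + 1 < h → A (p (2 * j + 1)) = p (2 * (j + 1)))
    (hA2 : ∀ j, j + 1 < h → A (p (2 * (j + 1))) = p (2 * j + 1)) (i : ℕ) (hi : i < 2 * h) :
    ((A * B) ^ h) (p i) = p (2 * h - 1 - i) := by
  have up : ∀ m j, j + m < h → ((A * B) ^ m) (p (2 * j)) = p (2 * (j + m)) := by
    intro m
    induction m with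
    | zero => intro j _; simp
    | succ m ih =>
      intro j hj
      rw [pow_succ', Perm.mul_apply, ih j (by omega), Perm.mul_apply, hB0 _ (by omega),
        hA1 _ (by omega)]
      rfl
  have down : ∀ m j, j + m < h → ((A * B) ^ m) (p (2 * (j + m) + 1)) = p (2 * j + 1) := by
    intro m
    induction m with
    | zero => intro j _; simp
    | succ m ih =>
      intro j hj
      rw [pow_succ, Perm.mul_apply, Perm.mul_apply, hB1 _ (by omega),
        show 2 * (j + (m + 1)) = 2 * ((j + m) + 1) by ring, hA2 _ (by omega), ih j (by omega)]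
  rcases Nat.even_or_odd' i with ⟨j, rfl | rfl⟩
  · -- `h = j + 1 + (h - 1 - j)`
    obtain ⟨m, hm⟩ : ∃ m, h = j + (1 + m) := ⟨h - 1 - j, by omega⟩
    have e1 : ((A * B) ^ m) (p (2 * j)) = p (2 * (j + m)) := up m j (by omega)
    have e2 : (A * B) (p (2 * (j + m))) = p (2 * (j + m) + 1) := by
      rw [Perm.mul_apply, hB0 _ (by omega), hAl _ (by omega)]
    have e3 : ((A * B) ^ j) (p (2 * (m + j) + 1)) = p (2 * m + 1) := down j m (by omega)
    conv_lhs => rw [hm]
    rw [pow_add, pow_add, pow_one, Perm.mul_apply, Perm.mul_apply, e1, e2, Nat.add_comm j m, e3]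
    congr 1; omega
  · obtain ⟨m, hm⟩ : ∃ m, h = m + (1 + j) := ⟨h - 1 - j, by omega⟩
    have e1 : ((A * B) ^ j) (p (2 * (0 + j) + 1)) = p (2 * 0 + 1) := down j 0 (by omega)
    rw [Nat.zero_add] at e1
    have e2 : (A * B) (p (2 * 0 + 1)) = p 0 := by
      rw [Perm.mul_apply, hB1 0 (by omega), Nat.mul_zero, hA0]
    have e3 : ((A * B) ^ m) (p (2 * 0)) = p (2 * (0 + m)) := up m 0 (by omega)
    rw [Nat.mul_zero] at e3
    conv_lhs => rw [hm]
    rw [pow_add, pow_add, pow_one, Perm.mul_apply, Perm.mul_apply, e1, e2, e3]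
    congr 1; omega

/-- A permutation `t` that reverses a path `p 0, …, p (L - 1)` and fixes everything else, and an
involution `z` that fixes `p 2, …, p (L - 2)` and moves `p 0, p 1, p (L - 1)` out of the path:
then `(t t^z)^2` is a 3-cycle. -/
lemma abstract_three {α : Type*} [Fintype α] [DecidableEq α] (L : ℕ) (hL : 4 ≤ L) (p : ℕ → α)
    (inj : ∀ i < L, ∀ j < L, p i = p j → i = j) (z t : Perm α) (hz : ∀ v, z (z v) = v)
    (ht : ∀ i < L, t (p i) = p (L - 1 - i)) (ht' : ∀ v, (∀ i < L, v ≠ p i) → t v = v)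
    (hzf : ∀ i, 2 ≤ i → i + 2 ≤ L → z (p i) = p i) (hz0 : ∀ i < L, z (p 0) ≠ p i)
    (hz1 : ∀ i < L, z (p 1) ≠ p i) (hzL : ∀ i < L, z (p (L - 1)) ≠ p i) :
    ((t * (z * t * z)) ^ 2).IsThreeCycle := by
  -- action of `t' = z t z`
  have t'out : ∀ v, (∀ i < L, z v ≠ p i) → (z * t * z) v = v := by
    intro v hv
    rw [Perm.mul_apply, Perm.mul_apply, ht' _ hv, hz]
  have t'z : ∀ i < L, (z * t * z) (z (p i)) = z (p (L - 1 - i)) := by
    intro i hi
    rw [Perm.mul_apply, Perm.mul_apply, hz, ht i hi]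
  have t'p : ∀ i, 2 ≤ i → i + 2 ≤ L → (z * t * z) (p i) = z (p (L - 1 - i)) := by
    intro i h1 h2
    have := t'z i (by omega)
    rwa [hzf i h1 h2] at this
  obtain ⟨u, hu⟩ : ∃ u, u = t * (z * t * z) := ⟨_, rfl⟩
  have hu' : ∀ v, u v = t ((z * t * z) v) := fun v => by rw [hu, Perm.mul_apply]
  have u0 : u (p 0) = p (L - 1) := by
    rw [hu', t'out _ hz0, ht 0 (by omega)]; rfl
  have uL : u (p (L - 1)) = p 0 := by
    rw [hu', t'out _ hzL, ht _ (by omega)]; congr 1; omega
  have u1 : u (p 1) = p (L - 2) := by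
    rw [hu', t'out _ hz1, ht 1 (by omega)]; rfl
  have uL2 : u (p (L - 2)) = z (p 1) := by
    rw [hu', t'p _ (by omega) (by omega), show L - 1 - (L - 2) = 1 by omega, ht' _ hz1]
  have uz1 : u (z (p 1)) = p 1 := by
    rw [hu', t'z 1 (by omega), show L - 1 - 1 = L - 2 by omega, hzf _ (by omega) (by omega),
      ht _ (by omega)]
    congr 1; omega
  have uz0 : u (z (p 0)) = z (p (L - 1)) := by
    rw [hu', t'z 0 (by omega), Nat.sub_zero, ht' _ hzL]
  have uzL : u (z (p (L - 1))) = z (p 0) := by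
    rw [hu', t'z _ (by omega), Nat.sub_self, ht' _ hz0]
  have um : ∀ i, 2 ≤ i → i + 3 ≤ L → u (p i) = p i := by
    intro i h1 h2
    rw [hu', t'p _ h1 (by omega), hzf _ (by omega) (by omega), ht _ (by omega)]
    congr 1; omega
  have ne1 : p 1 ≠ p (L - 2) := fun h => by
    have := inj _ (by omega) _ (by omega) h; omega
  have ne2 : p 1 ≠ z (p 1) := fun h => hz1 1 (by omega) h.symm
  have ne3 : p (L - 2) ≠ z (p 1) := fun h => hz1 (L - 2) (by omega) h.symm
  have key : u ^ 2 = swap (p 1) (p (L - 2)) * swap (p 1) (z (p 1)) := by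
    ext1 v
    rw [pow_two, Perm.mul_apply, Perm.mul_apply]
    by_cases v1 : v = p 1
    · rw [v1, u1, uL2, swap_apply_left, swap_apply_of_ne_of_ne (Ne.symm ne2) (Ne.symm ne3)]
    by_cases v2 : v = z (p 1)
    · rw [v2, uz1, u1, swap_apply_right, swap_apply_left]
    by_cases v3 : v = p (L - 2)
    · rw [v3, uL2, uz1, swap_apply_of_ne_of_ne (Ne.symm ne1) ne3, swap_apply_right]
    rw [swap_apply_of_ne_of_ne v1 v2, swap_apply_of_ne_of_ne v1 v3]
    by_cases hv : ∃ i < L, v = p i
    · obtain ⟨i, hi, rfl⟩ := hv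
      have i1 : i ≠ 1 := fun h => v1 (by rw [h])
      have i2 : i ≠ L - 2 := fun h => v3 (by rw [h])
      rcases Nat.eq_zero_or_pos i with rfl | hi0
      · rw [u0, uL]
      by_cases iL : i = L - 1
      · rw [iL, uL, u0]
      · rw [um i (by omega) (by omega), um i (by omega) (by omega)]
    · push Not at hv
      by_cases hv' : ∃ i < L, z v = p i
      · obtain ⟨i, hi, hzi⟩ := hv'
        have hv2 : v = z (p i) := by rw [← hzi, hz]
        have i1 : i ≠ 1 := fun h => v2 (by rw [hv2, h])
        rcases Nat.eq_zero_or_pos i with rfl | hi0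
        · rw [hv2, uz0, uzL]
        by_cases iL : i = L - 1
        · rw [hv2, iL, uzL, uz0]
        · exfalso
          apply hv i hi
          rw [hv2, hzf i (by omega) (by omega)]
      · push Not at hv'
        have : u v = v := by rw [hu', t'out _ hv', ht' _ hv]
        rw [this, this]
  rw [← hu, key]
  exact Perm.isThreeCycle_swap_mul_swap_same ne1 ne2 ne3

/-- A set stable under two involutions contains the orbits of its points under the group that
they generate. -/
lemma orbit_subset {X : Type*} (A B : Perm X) (hA : ∀ v, A (A v) = v) (hB : ∀ v, B (B v) = v)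
    (S : Set X) (h1 : ∀ w ∈ S, A w ∈ S) (h2 : ∀ w ∈ S, B w ∈ S) (x : X) (hx : x ∈ S) :
    orbit (Subgroup.closure {A, B}) x ⊆ S := by
  have key : ∀ g ∈ Subgroup.closure {A, B}, ∀ w, w ∈ S ↔ g w ∈ S := by
    intro g hg
    induction hg using Subgroup.closure_induction with
    | mem g hg =>
      intro w
      rcases hg with rfl | hg
      · exact ⟨h1 w, fun h => by have := h1 _ h; rwa [hA] at this⟩
      · rw [Set.mem_singleton_iff] at hg
        subst hg
        exact ⟨h2 w, fun h => by have := h2 _ h; rwa [hB] at this⟩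
    | one => intro w; rfl
    | mul g g' _ _ i1 i2 => intro w; rw [Perm.mul_apply, ← i1, ← i2]
    | inv g _ i1 =>
      intro w
      rw [i1 (g⁻¹ w), ← Perm.mul_apply, mul_inv_cancel, Perm.one_apply]
  rintro _ ⟨⟨g, hg⟩, rfl⟩
  exact (key g hg x).1 hx

/-- If `p` is fixed by one of two involutions `A, B`, then `(A B)^N` acts trivially on the orbit of
`p` under the group generated by `A` and `B` if `N` is a multiple of the size of the orbit. -/
lemma comp_power {X : Type*} [Finite X] (A B : Perm X) (hA : ∀ v, A (A v) = v)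
    (hB : ∀ v, B (B v) = v) (p : X) (hp : A p = p ∨ B p = p) (N : ℕ)
    (hN : Nat.card (orbit (Subgroup.closure {A, B}) p) ∣ N) (v : X)
    (hv : v ∈ orbit (Subgroup.closure {A, B}) p) : ((A * B) ^ N) v = v := by
  classical
  have := Fintype.ofFinite X
  have hAA : A * A = 1 := Equiv.ext hA
  have hBB : B * B = 1 := Equiv.ext hB
  have hAi : A⁻¹ = A := inv_eq_of_mul_eq_one_left hAA
  have hBi : B⁻¹ = B := inv_eq_of_mul_eq_one_left hBB
  have hconj : A * (A * B) * A⁻¹ = (A * B)⁻¹ := by
    rw [mul_inv_rev, hAi, hBi, ← mul_assoc, hAA, one_mul]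
  have hconj2 : ∀ i : ℤ, ∀ w, A (((A * B) ^ i) w) = ((A * B) ^ (-i)) (A w) := by
    intro i w
    have h1 : A * (A * B) ^ i * A⁻¹ = (A * B) ^ (-i) := by
      rw [← conj_zpow, hconj, inv_zpow, zpow_neg]
    have h2 : A * (A * B) ^ i = (A * B) ^ (-i) * A := by
      rw [← h1, mul_assoc, mul_assoc, inv_mul_cancel, mul_one]
    exact congrArg (fun g : Perm X => g w) h2
  have hSA : ∀ w, (∃ i : ℤ, w = ((A * B) ^ i) p) → ∃ i : ℤ, A w = ((A * B) ^ i) p := by
    rintro _ ⟨i, rfl⟩
    rw [hconj2]
    rcases hp with hp | hp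
    · exact ⟨-i, by rw [hp]⟩
    · refine ⟨-i + 1, ?_⟩
      rw [zpow_add, zpow_one, Perm.mul_apply, Perm.mul_apply, hp]
  have hSB : ∀ w, (∃ i : ℤ, w = ((A * B) ^ i) p) → ∃ i : ℤ, B w = ((A * B) ^ i) p := by
    rintro _ ⟨i, rfl⟩
    have h1 : B (((A * B) ^ i) p) = A (((A * B) ^ (1 + i)) p) := by
      rw [zpow_add, zpow_one, Perm.mul_apply, Perm.mul_apply, hA]
    rw [h1]
    exact hSA _ ⟨_, rfl⟩
  have hsub := orbit_subset A B hA hB {w | ∃ i : ℤ, w = ((A * B) ^ i) p} hSA hSB p ⟨0, by simp⟩
  have heq : orbit (Subgroup.closure {A, B}) p = orbit (Subgroup.zpowers (A * B)) p := by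
    apply Set.Subset.antisymm
    · intro w hw
      obtain ⟨i, rfl⟩ := hsub hw
      exact ⟨⟨(A * B) ^ i, ⟨i, rfl⟩⟩, rfl⟩
    · rintro _ ⟨⟨g, i, rfl⟩, rfl⟩
      have hm : (A * B) ^ i ∈ Subgroup.closure {A, B} := by
        apply Subgroup.zpow_mem
        exact Subgroup.mul_mem _ (Subgroup.subset_closure (by simp))
          (Subgroup.subset_closure (by simp))
      exact ⟨⟨(A * B) ^ i, hm⟩, rfl⟩
  rw [heq] at hN
  have hper : ((A * B) ^ N) p = p := by
    have h1 := MulAction.minimalPeriod_eq_card (a := A * B) (b := p)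
    have h2 : Function.minimalPeriod (fun w => (A * B) • w) p ∣ N := by
      rw [h1, ← Nat.card_eq_fintype_card]; exact hN
    exact (MulAction.pow_smul_eq_iff_minimalPeriod_dvd (a := A * B) (b := p)).2 h2
  obtain ⟨i, rfl⟩ := hsub hv
  have h3 : (A * B) ^ N * (A * B) ^ i = (A * B) ^ i * (A * B) ^ N := by
    rw [← zpow_natCast, ← zpow_add, ← zpow_add, add_comm]
  have h4 := congrArg (fun g : Perm X => g p) h3
  simp only [Perm.mul_apply] at h4
  rw [h4, hper]

/-- Every component of the forest of the edges of two colours that contains a non-central vertex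
has a vertex that is fixed by one of the two involutions. -/
lemma endpoint (ha : ∀ j, j + 1 < k → a j ≠ a (j + 1)) (x y : ZMod 3) (hxy : x ≠ y) (t : ZMod 3)
    (d : ℕ) : ∀ j : Fin k, j.val + d + 1 = k →
      ∃ p, (some (t, j) : V k) ∈ orbit (Subgroup.closure {rho k a x, rho k a y}) p ∧
        (rho k a x p = p ∨ rho k a y p = p) := by
  induction d with
  | zero =>
    intro j hj
    refine ⟨some (t, j), mem_orbit_self _, ?_⟩
    by_cases hx : x = a j + t
    · right
      exact rho_fix y t j (fun h => hxy (hx.trans h.symm)) (fun h => by omega)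
    · left
      exact rho_fix x t j hx (fun h => by omega)
  | succ d ih =>
    intro j hj
    have hj1 : j.val + 1 < k := by omega
    have hstep := rho_par ha t (⟨j.val + 1, hj1⟩ : Fin k)
    rw [par_succ (i := j) rfl] at hstep
    simp only at hstep
    by_cases hc : x = a (j.val + 1) + t ∨ y = a (j.val + 1) + t
    · obtain ⟨p, hp1, hp2⟩ := ih ⟨j.val + 1, hj1⟩ (by simp only; omega)
      refine ⟨p, ?_, hp2⟩
      have hmem : rho k a (a (j.val + 1) + t) ∈ Subgroup.closure {rho k a x, rho k a y} := by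
        rcases hc with hc | hc
        · rw [← hc]; exact Subgroup.subset_closure (by simp)
        · rw [← hc]; exact Subgroup.subset_closure (by simp)
      have h1 : (some (t, ⟨j.val + 1, hj1⟩) : V k) ∈
          orbit (Subgroup.closure {rho k a x, rho k a y}) (some (t, j)) :=
        ⟨⟨_, hmem⟩, hstep⟩
      have h2 := orbit_eq_iff.2 h1
      have h3 := orbit_eq_iff.2 hp1
      rw [← h3, h2]
      exact mem_orbit_self _
    · push Not at hc
      refine ⟨some (t, j), mem_orbit_self _, ?_⟩
      by_cases hx : x = a j + t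
      · right
        exact rho_fix y t j (fun h => hxy (hx.trans h.symm)) (fun _ => hc.2)
      · left
        exact rho_fix x t j hx (fun _ => hc.1)

lemma odd_dvd_prod (n s : ℕ) (hs : Odd s) (hn : s ≤ n) :
    s ∣ ∏ i ∈ Finset.range n, (2 * i + 1) := by
  obtain ⟨i, rfl⟩ := hs
  exact Finset.dvd_prod_of_mem (fun i => 2 * i + 1) (Finset.mem_range.2 (by omega))

lemma odd_prod (n : ℕ) : Odd (∏ i ∈ Finset.range n, (2 * i + 1)) := by
  induction n with
  | zero => simp
  | succ n ih => rw [Finset.prod_range_succ]; exact ih.mul ⟨n, rfl⟩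

/-- If `2^e` divides the even number `L` but not `s ≤ n`, then `s` divides
`L / 2 * (1 * 3 * ⋯ * (2n - 1))`. -/
lemma dvd_half (L n s e : ℕ) (hL : 2 ∣ L) (hL0 : L ≠ 0) (he : 2 ^ e ∣ L) (hs : ¬ 2 ^ e ∣ s)
    (hn : s ≤ n) : s ∣ L / 2 * ∏ i ∈ Finset.range n, (2 * i + 1) := by
  have hs0 : s ≠ 0 := fun h => hs (h ▸ dvd_zero _)
  obtain ⟨j, o, ho, rfl⟩ := Nat.exists_eq_two_pow_mul_odd hs0
  obtain ⟨L', rfl⟩ := hL
  rw [Nat.mul_div_cancel_left _ (by norm_num)]
  have hj : j < e := by
    by_contra h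
    exact hs (dvd_mul_of_dvd_left (pow_dvd_pow 2 (by omega)) _)
  have h1 : 2 ^ j ∣ L' := by
    obtain ⟨e', rfl⟩ : ∃ e', e = e' + 1 := ⟨e - 1, by omega⟩
    rw [pow_succ'] at he
    exact (pow_dvd_pow 2 (by omega)).trans (Nat.dvd_of_mul_dvd_mul_left (by norm_num) he)
  have h2 : o ≤ n := le_trans (Nat.le_mul_of_pos_left _ (by positivity)) hn
  exact mul_dvd_mul h1 (odd_dvd_prod n o ho h2)

/-- The main criterion. -/
theorem alternating (ha : ∀ j, j + 1 < k → a j ≠ a (j + 1)) (r : ℕ) (hr : 2 ≤ r) (hrk : r < k)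
    (hrun : ∀ j < r, a j = a 0 ∨ a j = a 1) (hend : a r ≠ a 0 ∧ a r ≠ a 1)
    (e : ℕ) (he : 1 ≤ e) (her : 2 ^ e ∣ r + 2)
    (hcomp : ∀ v : V k, v ∉ orbit (Subgroup.closure {rho k a (a 0), rho k a (a 1)}) (none : V k) →
      ¬ 2 ^ e ∣ Nat.card (orbit (Subgroup.closure {rho k a (a 0), rho k a (a 1)}) v)) :
    alternatingGroup (V k) ≤ G k a := by
  classical
  have hk0 : 0 < k := by omega
  have hk1 : 1 < k := by omega
  have h01 : a 0 ≠ a 1 := ha 0 (by omega)
  have heven : 2 ∣ r + 2 := (dvd_pow_self 2 (by omega)).trans her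
  -- the colours of the first run alternate
  have hcol : ∀ j, (2 * j < r → a (2 * j) = a 0) ∧ (2 * j + 1 < r → a (2 * j + 1) = a 1) := by
    intro j
    induction j with
    | zero => exact ⟨fun _ => rfl, fun _ => rfl⟩
    | succ j ih =>
      have c1 : 2 * (j + 1) < r → a (2 * (j + 1)) = a 0 := by
        intro h
        have h1 := ih.2 (by omega)
        have h2 := ha (2 * j + 1) (by omega)
        rcases hrun _ h with h3 | h3
        · exact h3
        · exfalso; apply h2; rw [h1]; exact h3.symm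
      refine ⟨c1, fun h => ?_⟩
      have h1 := c1 (by omega)
      have h2 := ha (2 * (j + 1)) (by omega)
      rcases hrun _ h with h3 | h3
      · exfalso; apply h2; rw [h1]; exact h3.symm
      · exact h3
  have hz : a r = a 1 + (a 1 - a 0) := by
    have : ∀ x y z : ZMod 3, x ≠ y → z ≠ x → z ≠ y → z = y + (y - x) := by decide
    exact this _ _ _ h01 hend.1 hend.2
  obtain ⟨δ, hδ⟩ : ∃ δ, δ = a 1 - a 0 := ⟨_, rfl⟩
  have hδ0 : δ ≠ 0 := fun h => h01 (sub_eq_zero.1 (hδ ▸ h)).symm
  obtain ⟨p, hp⟩ : ∃ p : ℕ → V k, p = fun i => if i = 0 then some (δ, ⟨0, hk0⟩) else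
      if i = 1 then none else if h : i - 2 < k then some (0, ⟨i - 2, h⟩) else none := ⟨_, rfl⟩
  have p0 : p 0 = some (δ, ⟨0, hk0⟩) := by rw [hp]; rfl
  have p1 : p 1 = none := by rw [hp]; rfl
  have p2 : ∀ i (h : i < k), p (i + 2) = some (0, ⟨i, h⟩) := by
    intro i h
    rw [hp]
    simp [h]
  obtain ⟨A, hA⟩ : ∃ A, A = rho k a (a 0) := ⟨_, rfl⟩
  obtain ⟨B, hB⟩ : ∃ B, B = rho k a (a 1) := ⟨_, rfl⟩
  obtain ⟨z, hzd⟩ : ∃ z, z = rho k a (a r) := ⟨_, rfl⟩
  have iA : ∀ v, A (A v) = v := by rw [hA]; exact involutive ha hk0 _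
  have iB : ∀ v, B (B v) = v := by rw [hB]; exact involutive ha hk0 _
  have iz : ∀ v, z (z v) = v := by rw [hzd]; exact involutive ha hk0 _
  rw [← hA, ← hB] at hcomp
  -- an edge of the first path
  have hedge : ∀ i (h : i + 1 < k), rho k a (a (i + 1)) (p (i + 2)) = p (i + 3) := by
    intro i h
    have h1 := rho_par ha 0 (⟨i + 1, h⟩ : Fin k)
    rw [par_succ (i := ⟨i, by omega⟩) rfl] at h1
    rw [p2 i (by omega), p2 (i + 1) h]
    simpa using h1
  obtain ⟨h, hh⟩ := heven
  have B0 : ∀ j < h, B (p (2 * j)) = p (2 * j + 1) := by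
    intro j hj
    rcases j with _ | j
    · rw [hB]
      have h1 := rho_some ha δ (⟨0, hk0⟩ : Fin k)
      rw [par_zero rfl] at h1
      simp only at h1
      rw [show a 0 + δ = a 1 by rw [hδ]; ring] at h1
      simpa [p0, p1] using h1
    · have h1 := hedge (2 * j) (by omega)
      rw [(hcol j).2 (by omega)] at h1
      rw [hB]
      exact h1
  have B1 : ∀ j < h, B (p (2 * j + 1)) = p (2 * j) := by
    intro j hj; rw [← B0 j hj, iB]
  have A0 : A (p 0) = p 0 := by
    rw [hA, p0]
    apply rho_fix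
    · intro h1
      apply hδ0
      simp only at h1
      linear_combination -h1
    · intro _ h1
      apply hend.1
      rw [hz, ← hδ]
      exact h1.symm
  have Al : ∀ j, j + 1 = h → A (p (2 * j + 1)) = p (2 * j + 1) := by
    intro j hj
    obtain ⟨i, rfl⟩ : ∃ i, j = i + 1 := ⟨j - 1, by omega⟩
    have h1 := p2 (2 * i + 1) (by omega)
    rw [show 2 * (i + 1) + 1 = 2 * i + 1 + 2 by ring, h1, hA]
    apply rho_fix
    · simp only [add_zero]
      rw [(hcol i).2 (by omega)]
      exact h01
    · intro _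
      simp only [add_zero]
      rw [show 2 * i + 1 + 1 = r by omega]
      exact hend.1.symm
  have A1 : ∀ j, j + 1 < h → A (p (2 * j + 1)) = p (2 * (j + 1)) := by
    intro j hj
    rcases j with _ | j
    · rw [hA]
      have h1 := p2 0 hk0
      rw [show 2 * 0 + 1 = 1 by rfl, p1, rho_none ha hk0, sub_self]
      exact h1.symm
    · have h1 := hedge (2 * j + 1) (by omega)
      have h2 := (hcol (j + 1)).1 (by omega)
      rw [show 2 * j + 1 + 1 = 2 * (j + 1) by ring, h2] at h1
      rw [hA]
      exact h1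
  have A2 : ∀ j, j + 1 < h → A (p (2 * (j + 1))) = p (2 * j + 1) := by
    intro j hj; rw [← A1 j hj, iA]
  have hrev : ∀ i < r + 2, ((A * B) ^ h) (p i) = p (r + 2 - 1 - i) := by
    intro i hi
    rw [hh]
    exact path_power h p A B B0 B1 A0 Al A1 A2 i (by omega)
  -- the central component is contained in the path
  have hcentral : orbit (Subgroup.closure {A, B}) (none : V k) ⊆ {v | ∃ i < r + 2, v = p i} := by
    apply orbit_subset A B iA iB
    · rintro _ ⟨i, hi, rfl⟩
      rcases Nat.even_or_odd' i with ⟨j, rfl | rfl⟩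
      · rcases j with _ | j
        · exact ⟨0, by omega, by rw [Nat.mul_zero, A0]⟩
        · exact ⟨2 * j + 1, by omega, A2 j (by omega)⟩
      · by_cases hj : j + 1 = h
        · exact ⟨2 * j + 1, hi, Al j hj⟩
        · exact ⟨2 * (j + 1), by omega, A1 j (by omega)⟩
    · rintro _ ⟨i, hi, rfl⟩
      rcases Nat.even_or_odd' i with ⟨j, rfl | rfl⟩
      · exact ⟨2 * j + 1, by omega, B0 j (by omega)⟩
      · exact ⟨2 * j, by omega, B1 j (by omega)⟩
    · exact ⟨1, by omega, p1.symm⟩
  obtain ⟨n, hn⟩ : ∃ n, n = Nat.card (V k) := ⟨_, rfl⟩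
  obtain ⟨M, hM⟩ : ∃ M, M = ∏ i ∈ Finset.range n, (2 * i + 1) := ⟨_, rfl⟩
  have hModd : Odd M := hM ▸ odd_prod n
  obtain ⟨t, ht⟩ : ∃ t, t = (A * B) ^ (h * M) := ⟨_, rfl⟩
  have tp : ∀ i < r + 2, t (p i) = p (r + 2 - 1 - i) := by
    have h2 : ∀ q, ∀ i < r + 2, (((A * B) ^ h) ^ (2 * q)) (p i) = p i := by
      intro q
      induction q with
      | zero => intro i _; simp
      | succ q ih =>
        intro i hi
        rw [show 2 * (q + 1) = 2 * q + 1 + 1 by ring, pow_succ, pow_succ, Perm.mul_apply,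
          Perm.mul_apply, hrev i hi, hrev _ (by omega),
          show r + 2 - 1 - (r + 2 - 1 - i) = i by omega]
        exact ih i hi
    intro i hi
    obtain ⟨q, hq⟩ := hModd
    rw [ht, pow_mul, hq, pow_succ, Perm.mul_apply, hrev i hi, h2 q _ (by omega)]
  have tout : ∀ v, (∀ i < r + 2, v ≠ p i) → t v = v := by
    intro v hv
    rcases v with _ | ⟨u, j⟩
    · exact absurd p1.symm (hv 1 (by omega))
    have hnot : (some (u, j) : V k) ∉ orbit (Subgroup.closure {A, B}) (none : V k) := by
      intro hmem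
      obtain ⟨i, hi, hvi⟩ := hcentral hmem
      exact hv i hi hvi
    obtain ⟨q, hq1, hq2⟩ := endpoint ha (a 0) (a 1) h01 u (k - 1 - j.val) j (by omega)
    rw [← hA, ← hB] at hq1 hq2
    have h1 := hcomp _ hnot
    rw [orbit_eq_iff.2 hq1] at h1
    rw [ht]
    apply comp_power A B iA iB q hq2 _ _ _ hq1
    rw [hM]
    have h2 := dvd_half (r + 2) n _ e ⟨h, hh⟩ (by omega) her h1 (by
      rw [hn]
      exact Nat.card_le_card_of_injective (fun x : orbit (Subgroup.closure {A, B}) q => x.1)
        Subtype.val_injective)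
    rw [hh, Nat.mul_div_cancel_left _ (by norm_num)] at h2
    exact h2
  have z0 : z (p 0) = some (δ, ⟨1, hk1⟩) := by
    have h1 := rho_par ha δ (⟨1, hk1⟩ : Fin k)
    rw [par_succ (i := ⟨0, hk0⟩) rfl] at h1
    simp only at h1
    rw [hzd, hz, ← hδ, p0]
    exact h1
  have z1 : z (p 1) = some (a r - a 0, ⟨0, hk0⟩) := by
    rw [hzd, p1, rho_none ha hk0]
  have zL : z (p (r + 1)) = some (0, ⟨r, hrk⟩) := by
    obtain ⟨s, rfl⟩ : ∃ s, r = s + 1 := ⟨r - 1, by omega⟩
    have h1 := hedge s hrk
    rw [hzd, show s + 1 + 1 = s + 2 by ring, h1]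
    exact p2 (s + 1) hrk
  have pcase : ∀ i < r + 2, p i = some (δ, ⟨0, hk0⟩) ∨ p i = none ∨
      ∃ j : Fin k, j.val < r ∧ p i = some (0, j) := by
    intro i hi
    rcases i with _ | _ | i
    · left; exact p0
    · right; left; exact p1
    · right; right
      exact ⟨⟨i, by omega⟩, by simp only; omega, p2 i (by omega)⟩
  have hthree := abstract_three (r + 2) (by omega) p (by
      intro i hi j hj hij
      rcases i with _ | _ | i <;> rcases j with _ | _ | j
      · rfl
      · rw [p0, p1] at hij; simp at hij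
      · rw [p0, p2 j (by omega)] at hij
        simp only [Option.some.injEq, Prod.mk.injEq] at hij
        exact absurd hij.1 hδ0
      · rw [p0, p1] at hij; simp at hij
      · rfl
      · rw [p1, p2 j (by omega)] at hij; simp at hij
      · rw [p0, p2 i (by omega)] at hij
        simp only [Option.some.injEq, Prod.mk.injEq] at hij
        exact absurd hij.1.symm hδ0
      · rw [p1, p2 i (by omega)] at hij; simp at hij
      · rw [p2 i (by omega), p2 j (by omega)] at hij
        simp only [Option.some.injEq, Prod.mk.injEq, Fin.mk.injEq, true_and] at hij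
        omega) z t iz tp tout
    (by
      intro i h1 h2
      obtain ⟨s, rfl⟩ : ∃ s, i = s + 2 := ⟨i - 2, by omega⟩
      rw [p2 s (by omega), hzd]
      apply rho_fix
      · simp only [add_zero]
        rcases hrun s (by omega) with h3 | h3 <;> rw [h3]
        · exact hend.1
        · exact hend.2
      · intro _
        simp only [add_zero]
        rcases hrun (s + 1) (by omega) with h3 | h3 <;> rw [h3]
        · exact hend.1
        · exact hend.2)
    (by
      intro i hi
      rw [z0]
      rcases pcase i hi with h1 | h1 | ⟨j, _, h1⟩ <;> rw [h1]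
      · simp
      · simp
      · simp [hδ0])
    (by
      intro i hi
      rw [z1]
      have e1 : a r - a 0 ≠ δ := fun h1 => hend.2 (by rw [hδ] at h1; linear_combination h1)
      have e2 : a r - a 0 ≠ 0 := fun h1 => hend.1 (sub_eq_zero.1 h1)
      rcases pcase i hi with h1 | h1 | ⟨j, _, h1⟩ <;> rw [h1]
      · simp [e1]
      · simp
      · simp [e2])
    (by
      intro i hi
      rw [show r + 2 - 1 = r + 1 by omega, zL]
      rcases pcase i hi with h1 | h1 | ⟨j, hj, h1⟩ <;> rw [h1]
      · simp [hδ0.symm]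
      · simp
      · intro h2
        simp only [Option.some.injEq, Prod.mk.injEq, true_and] at h2
        rw [← h2] at hj
        simp at hj)
  have mA : A ∈ G k a := hA ▸ rho_mem _
  have mB : B ∈ G k a := hB ▸ rho_mem _
  have mz : z ∈ G k a := hzd ▸ rho_mem _
  have mt : t ∈ G k a := ht ▸ (G k a).pow_mem ((G k a).mul_mem mA mB) _
  exact Perm.alternatingGroup_le_of_isPreprimitive_of_isThreeCycle_mem (primitive hk0 ha) hthree
    ((G k a).pow_mem ((G k a).mul_mem mt ((G k a).mul_mem ((G k a).mul_mem mz mt) mz)) 2)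

/-! ### The sizes of the components -/

lemma two_colours (x y z w : ZMod 3) (hxy : x ≠ y) (hzx : z ≠ x) (hzy : z ≠ y) (hw : w ≠ z) :
    x = w ∨ y = w := by
  revert x y z w; decide

/-- One step along the path `P_u` inside a component. -/
lemma step_orbit (ha : ∀ j, j + 1 < k → a j ≠ a (j + 1)) (x y z : ZMod 3) (hxy : x ≠ y)
    (hzx : z ≠ x) (hzy : z ≠ y) (u : ZMod 3) (i : ℕ) (hi : i + 1 < k) (hc : a (i + 1) + u ≠ z) :
    orbit (Subgroup.closure {rho k a x, rho k a y}) (some (u, ⟨i + 1, hi⟩) : V k) =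
      orbit (Subgroup.closure {rho k a x, rho k a y}) (some (u, ⟨i, by omega⟩) : V k) := by
  have h1 := rho_par ha u (⟨i + 1, hi⟩ : Fin k)
  rw [par_succ (i := ⟨i, by omega⟩) rfl] at h1
  simp only at h1
  have hmem : rho k a (a (i + 1) + u) ∈ Subgroup.closure {rho k a x, rho k a y} := by
    rcases two_colours x y z _ hxy hzx hzy hc with h | h
    · rw [← h]; exact Subgroup.subset_closure (by simp)
    · rw [← h]; exact Subgroup.subset_closure (by simp)
  exact orbit_eq_iff.2 ⟨⟨_, hmem⟩, h1⟩

lemma back (ha : ∀ j, j + 1 < k → a j ≠ a (j + 1)) (x y z : ZMod 3) (hxy : x ≠ y)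
    (hzx : z ≠ x) (hzy : z ≠ y) (u : ZMod 3) : ∀ (j : ℕ) (hj : j < k),
    (some (u, ⟨j, hj⟩) : V k) ∈ orbit (Subgroup.closure {rho k a x, rho k a y}) (none : V k) ∨
      ∃ s ≤ j, a s + u = z ∧ ∀ i, s < i → i ≤ j → a i + u ≠ z := by
  intro j
  induction j with
  | zero =>
    intro hj
    by_cases h : a 0 + u = z
    · exact Or.inr ⟨0, le_rfl, h, fun i h1 h2 => by omega⟩
    · left
      have h1 := rho_none (a := a) ha hj (a 0 + u)
      rw [add_sub_cancel_left] at h1
      have hmem : rho k a (a 0 + u) ∈ Subgroup.closure {rho k a x, rho k a y} := by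
        rcases two_colours x y z _ hxy hzx hzy h with h | h
        · rw [← h]; exact Subgroup.subset_closure (by simp)
        · rw [← h]; exact Subgroup.subset_closure (by simp)
      exact ⟨⟨_, hmem⟩, h1⟩
  | succ j ih =>
    intro hj
    by_cases h : a (j + 1) + u = z
    · exact Or.inr ⟨j + 1, le_rfl, h, fun i h1 h2 => by omega⟩
    · rcases ih (by omega) with h1 | ⟨s, hs, h2, h3⟩
      · left
        have h4 := step_orbit ha x y z hxy hzx hzy u j hj h
        rw [← orbit_eq_iff.2 h1, ← h4]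
        exact mem_orbit_self _
      · refine Or.inr ⟨s, by omega, h2, fun i h4 h5 => ?_⟩
        rcases Nat.lt_or_ge i (j + 1) with h6 | h6
        · exact h3 i h4 (by omega)
        · rw [show i = j + 1 by omega]; exact h

lemma fwd (z u : ZMod 3) (d : ℕ) : ∀ j : ℕ, j + d + 1 = k →
    ∃ f, j ≤ f ∧ f < k ∧ (∀ i, j < i → i ≤ f → a i + u ≠ z) ∧ (f + 1 < k → a (f + 1) + u = z) := by
  induction d with
  | zero => intro j hj; exact ⟨j, le_rfl, by omega, fun i h1 h2 => by omega, fun h => by omega⟩
  | succ d ih =>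
    intro j hj
    by_cases h : a (j + 1) + u = z
    · exact ⟨j, le_rfl, by omega, fun i h1 h2 => by omega, fun _ => h⟩
    · obtain ⟨f, h1, h2, h3, h4⟩ := ih (j + 1) (by omega)
      refine ⟨f, by omega, h2, fun i h5 h6 => ?_, h4⟩
      rcases Nat.lt_or_ge (j + 1) i with h7 | h7
      · exact h3 i h7 h6
      · rw [show i = j + 1 by omega]; exact h

/-- The component of a non-central vertex is an interval of a path. -/
lemma comp_card (ha : ∀ j, j + 1 < k → a j ≠ a (j + 1)) (hk : 0 < k) (x y z : ZMod 3)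
    (hxy : x ≠ y) (hzx : z ≠ x) (hzy : z ≠ y) (v : V k)
    (hv : v ∉ orbit (Subgroup.closure {rho k a x, rho k a y}) (none : V k)) :
    ∃ s f, s ≤ f ∧ f < k ∧ (∀ i, s < i → i ≤ f → a i ≠ a s) ∧ (f + 1 < k → a (f + 1) = a s) ∧
      Nat.card (orbit (Subgroup.closure {rho k a x, rho k a y}) v) = f + 1 - s := by
  rcases v with _ | ⟨u, j, hj⟩
  · exact absurd (mem_orbit_self _) hv
  rcases back ha x y z hxy hzx hzy u j hj with h | ⟨s, hs, h1, h2⟩
  · exact absurd h hv
  obtain ⟨f, h3, h4, h5, h6⟩ := fwd (k := k) (a := a) z u (k - 1 - j) j (by omega)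
  have hall : ∀ i, s < i → i ≤ f → a i + u ≠ z := by
    intro i h7 h8
    rcases Nat.lt_or_ge j i with h9 | h9
    · exact h5 i h9 h8
    · exact h2 i h7 h9
  refine ⟨s, f, by omega, h4, fun i h7 h8 h9 => hall i h7 h8 (by rw [h9]; exact h1),
    fun h7 => ?_, ?_⟩
  · have h8 := h6 h7
    rw [← h1] at h8
    exact add_right_cancel h8
  obtain ⟨g, hg⟩ : ∃ g : ℕ → V k, g = fun i => if h : i < k then some (u, ⟨i, h⟩) else none :=
    ⟨_, rfl⟩
  have gk : ∀ i (h : i < k), g i = some (u, ⟨i, h⟩) := fun i h => by rw [hg]; simp [h]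
  have horb : ∀ d, s + d ≤ f →
      orbit (Subgroup.closure {rho k a x, rho k a y}) (g (s + d)) =
        orbit (Subgroup.closure {rho k a x, rho k a y}) (g s) := by
    intro d
    induction d with
    | zero => intro _; rfl
    | succ d ih =>
      intro hd
      rw [← ih (by omega), gk _ (show s + (d + 1) < k by omega), gk _ (show s + d < k by omega)]
      exact step_orbit ha x y z hxy hzx hzy u (s + d) (by omega) (hall _ (by omega) (by omega))
  have hvs : orbit (Subgroup.closure {rho k a x, rho k a y}) (some (u, ⟨j, hj⟩) : V k) =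
      orbit (Subgroup.closure {rho k a x, rho k a y}) (g s) := by
    have := horb (j - s) (by omega)
    rwa [show s + (j - s) = j by omega, gk j hj] at this
  have hset : orbit (Subgroup.closure {rho k a x, rho k a y}) (some (u, ⟨j, hj⟩) : V k) =
      g '' Set.Icc s f := by
    apply Set.Subset.antisymm
    · have hclosed : ∀ c, c ≠ z → ∀ w ∈ g '' Set.Icc s f, rho k a c w ∈ g '' Set.Icc s f := by
        rintro c hc _ ⟨i, ⟨hi1, hi2⟩, rfl⟩
        have hik : i < k := by omega
        rw [gk i hik]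
        by_cases c1 : c = a i + u
        · have his : i ≠ s := by
            rintro rfl
            exact hc (c1.trans h1)
          obtain ⟨i', rfl⟩ : ∃ i', i = i' + 1 := ⟨i - 1, by omega⟩
          have h7 := rho_some ha u (⟨i' + 1, hik⟩ : Fin k)
          rw [par_succ (i := ⟨i', by omega⟩) rfl] at h7
          simp only at h7
          rw [c1, h7]
          exact ⟨i', ⟨by omega, by omega⟩, gk i' (by omega)⟩
        · by_cases c2 : i + 1 < k ∧ c = a (i + 1) + u
          · obtain ⟨c2, c3⟩ := c2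
            have hif : i ≠ f := by
              rintro rfl
              exact hc (c3.trans (h6 c2))
            have h7 := rho_par ha u (⟨i + 1, c2⟩ : Fin k)
            rw [par_succ (i := ⟨i, by omega⟩) rfl] at h7
            simp only at h7
            rw [c3, h7]
            exact ⟨i + 1, ⟨by omega, by omega⟩, gk (i + 1) c2⟩
          · have h7 := rho_fix (a := a) c u (⟨i, hik⟩ : Fin k) c1 (fun h8 h9 => c2 ⟨h8, h9⟩)
            rw [h7]
            exact ⟨i, ⟨hi1, hi2⟩, gk i hik⟩
      apply orbit_subset _ _ (involutive ha hk x) (involutive ha hk y)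
      · exact hclosed x hzx.symm
      · exact hclosed y hzy.symm
      · exact ⟨j, ⟨hs, h3⟩, gk j hj⟩
    · rintro _ ⟨i, ⟨hi1, hi2⟩, rfl⟩
      rw [hvs, ← horb (i - s) (by omega), show s + (i - s) = i by omega]
      exact mem_orbit_self _
  rw [hset]
  rw [Nat.card_coe_set_eq, Set.InjOn.ncard_image]
  · rw [← Finset.coe_Icc, Set.ncard_coe_finset, Nat.card_Icc]
  · rintro i ⟨_, hi⟩ i' ⟨_, hi'⟩ hii
    rw [gk i (by omega), gk i' (by omega)] at hii
    simp only [Option.some.injEq, Prod.mk.injEq, Fin.mk.injEq, true_and] at hii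
    exact hii

/-- The criterion in terms of the colour sequence. -/
theorem alternating_runs (ha : ∀ j, j + 1 < k → a j ≠ a (j + 1)) (r : ℕ) (hr : 2 ≤ r)
    (hrk : r < k) (hrun : ∀ j < r, a j = a 0 ∨ a j = a 1) (hend : a r ≠ a 0 ∧ a r ≠ a 1)
    (e : ℕ) (he : 2 ≤ e) (her : 2 ^ e ∣ r + 2)
    (hruns : ∀ s f, s + 2 ≤ f → f < k → (∀ i, s < i → i ≤ f → a i ≠ a s) →
      (f + 1 < k → a (f + 1) = a s) → ¬ 2 ^ e ∣ f - s + 1) :
    alternatingGroup (V k) ≤ G k a := by
  apply alternating ha r hr hrk hrun hend e (by omega) her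
  intro v hv hdvd
  obtain ⟨s, f, h1, h2, h3, h4, h5⟩ := comp_card ha (by omega) (a 0) (a 1) (a r) (ha 0 (by omega))
    hend.1 hend.2 v hv
  rw [h5] at hdvd
  by_cases h6 : s + 2 ≤ f
  · apply hruns s f h6 h2 h3 h4
    rwa [show f - s + 1 = f + 1 - s by omega]
  · have h7 : 4 ≤ 2 ^ e := by
      calc 4 = 2 ^ 2 := by norm_num
        _ ≤ 2 ^ e := Nat.pow_le_pow_right (by norm_num) he
    have h8 := Nat.le_of_dvd (by omega) hdvd
    omega

/-- The colour sequence `0, 1, 2, 0, 1, 2, …` and its images: all groups contain the alternating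
group. -/
theorem fan (hk : 3 ≤ k) (c d : ZMod 3) (hd : d ≠ 0) :
    alternatingGroup (V k) ≤ G k (fun j => c + j * d) := by
  have h3 : (3 : ZMod 3) = 0 := by decide
  have key : ∀ d : ZMod 3, d ≠ 0 → d ≠ 0 ∧ 2 * d ≠ 0 ∧ 2 * d ≠ d := by decide
  obtain ⟨-, d2, d3⟩ := key d hd
  apply alternating_runs (a := fun j => c + j * d) (k := k) _ 2 le_rfl (by omega) _ _ 2 le_rfl
    (by norm_num)
  · intro s f h1 h2 h4 h5 hdvd
    have h6 : f - s + 1 ≤ 3 := by
      by_contra h7
      apply h4 (s + 3) (by omega) (by omega)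
      push_cast
      rw [h3, add_zero]
    have h8 := Nat.le_of_dvd (by omega) hdvd
    omega
  · intro j _ h
    apply hd
    push_cast at h
    linear_combination -h
  · intro j hj
    interval_cases j
    · left; rfl
    · right; rfl
  · constructor
    · intro h
      apply d2
      push_cast at h
      linear_combination h
    · intro h
      apply hd
      push_cast at h
      linear_combination h

/-- A permutation `t` that is trivial outside a set `S`, and an involution `z` that moves three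
points `d1, d2, d3` of `S` out of `S` and fixes the rest of `S`: if `t d1 = d2` and there are no
further coincidences, the fifth power of the commutator of `t` and `z` is a 3-cycle. -/
lemma abstract_five {α : Type*} [Fintype α] [DecidableEq α] (S : Set α) (z t : Perm α)
    (hz : ∀ v, z (z v) = v) (d1 d2 d3 : α) (m1 : d1 ∈ S) (m2 : d2 ∈ S) (m3 : d3 ∈ S)
    (hout : ∀ v, v ∉ S → t v = v) (hzf : ∀ v ∈ S, v ≠ d1 → v ≠ d2 → v ≠ d3 → z v = v)
    (z1 : z d1 ∉ S) (z2 : z d2 ∉ S) (z3 : z d3 ∉ S) (n12 : d1 ≠ d2) (n13 : d1 ≠ d3)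
    (n23 : d2 ≠ d3) (t1 : t d1 = d2) (t2a : t d2 ≠ d1) (t2b : t d2 ≠ d3) (t3a : t d3 ≠ d1)
    (t3c : t d3 ≠ d3) : ((t * z * t⁻¹ * z) ^ 5).IsThreeCycle := by
  have tinj : ∀ {u v : α}, t u = t v → u = v := fun h => t.injective h
  have hti : ∀ v, t⁻¹ (t v) = v := fun v => by rw [← Perm.mul_apply, inv_mul_cancel]; rfl
  have htt : ∀ v, t (t⁻¹ v) = v := fun v => by rw [← Perm.mul_apply, mul_inv_cancel]; rfl
  have hout' : ∀ v, v ∉ S → t⁻¹ v = v := fun v hv => by
    have h := hti v
    rwa [hout v hv] at h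
  have hS : ∀ v ∈ S, t v ∈ S := by
    intro v hv
    by_contra h
    have h1 := hout _ h
    exact h (by rw [tinj h1]; exact hv)
  have hS' : ∀ v ∈ S, t⁻¹ v ∈ S := by
    intro v hv
    by_contra h
    have h1 := hout _ h
    rw [htt] at h1
    exact h (h1 ▸ hv)
  obtain ⟨x, hx⟩ : ∃ x, x = t d2 := ⟨_, rfl⟩
  obtain ⟨y, hy⟩ : ∃ y, y = t d3 := ⟨_, rfl⟩
  have mx : x ∈ S := hx ▸ hS _ m2
  have my : y ∈ S := hy ▸ hS _ m3
  have x2 : x ≠ d2 := fun h => n12 (tinj (by rw [t1, ← hx, h]))
  have y2 : y ≠ d2 := fun h => n13 (tinj (by rw [t1, ← hy, h]))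
  have x1 : x ≠ d1 := hx ▸ t2a
  have x3 : x ≠ d3 := hx ▸ t2b
  have y1 : y ≠ d1 := hy ▸ t3a
  have y3 : y ≠ d3 := hy ▸ t3c
  have i2 : t⁻¹ d2 = d1 := by rw [← t1, hti]
  have ix : t⁻¹ x = d2 := by rw [hx, hti]
  have iy : t⁻¹ y = d3 := by rw [hy, hti]
  -- the preimages of `d1`, `d3`
  have i1 : t⁻¹ d1 ≠ d1 ∧ t⁻¹ d1 ≠ d2 ∧ t⁻¹ d1 ≠ d3 := by
    refine ⟨fun h => ?_, fun h => ?_, fun h => ?_⟩
    · have := htt d1; rw [h, t1] at this; exact n12 this.symm
    · have := htt d1; rw [h] at this; exact t2a this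
    · have := htt d1; rw [h] at this; exact t3a this
  have i3 : t⁻¹ d3 ≠ d1 ∧ t⁻¹ d3 ≠ d2 ∧ t⁻¹ d3 ≠ d3 := by
    refine ⟨fun h => ?_, fun h => ?_, fun h => ?_⟩
    · have := htt d3; rw [h, t1] at this; exact n23 this
    · have := htt d3; rw [h] at this; exact t2b this
    · have := htt d3; rw [h] at this; exact t3c this
  obtain ⟨w, hw⟩ : ∃ w, w = t * z * t⁻¹ * z := ⟨_, rfl⟩
  have hw' : ∀ v, w v = t (z (t⁻¹ (z v))) := fun v => by
    rw [hw, Perm.mul_apply, Perm.mul_apply, Perm.mul_apply]
  have w1 : w d1 = d2 := by rw [hw', hout' _ z1, hz, t1]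
  have w2 : w d2 = x := by rw [hw', hout' _ z2, hz, hx]
  have w3 : w d3 = y := by rw [hw', hout' _ z3, hz, hy]
  have wx : w x = z d2 := by rw [hw', hzf x mx x1 x2 x3, ix, hout _ z2]
  have wy : w y = z d3 := by rw [hw', hzf y my y1 y2 y3, iy, hout _ z3]
  have wq2 : w (z d2) = z d1 := by rw [hw', hz, i2, hout _ z1]
  have wq1 : w (z d1) = d1 := by
    rw [hw', hz, hzf _ (hS' _ m1) i1.1 i1.2.1 i1.2.2, htt]
  have wq3 : w (z d3) = d3 := by
    rw [hw', hz, hzf _ (hS' _ m3) i3.1 i3.2.1 i3.2.2, htt]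
  have p5 : ∀ v, (w ^ 5) v = w (w (w (w (w v)))) := fun v => by
    simp only [pow_succ, pow_zero, one_mul, Perm.mul_apply]
  have e1 : d3 ≠ y := Ne.symm y3
  have e2 : d3 ≠ z d3 := fun h => z3 (h ▸ m3)
  have e3 : y ≠ z d3 := fun h => z3 (h ▸ my)
  have key : w ^ 5 = swap d3 y * swap d3 (z d3) := by
    ext1 v
    rw [Perm.mul_apply, p5]
    by_cases v3 : v = d3
    · rw [v3, w3, wy, wq3, w3, wy, swap_apply_left, swap_apply_of_ne_of_ne (Ne.symm e2)
        (Ne.symm e3)]
    by_cases vq3 : v = z d3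
    · rw [vq3, wq3, w3, wy, wq3, w3, swap_apply_right, swap_apply_left]
    by_cases vy : v = y
    · rw [vy, wy, wq3, w3, wy, wq3, swap_apply_of_ne_of_ne (Ne.symm e1) e3, swap_apply_right]
    rw [swap_apply_of_ne_of_ne v3 vq3, swap_apply_of_ne_of_ne v3 vy]
    by_cases v1 : v = d1
    · rw [v1, w1, w2, wx, wq2, wq1]
    by_cases v2 : v = d2
    · rw [v2, w2, wx, wq2, wq1, w1]
    by_cases vx : v = x
    · rw [vx, wx, wq2, wq1, w1, w2]
    by_cases vq2 : v = z d2
    · rw [vq2, wq2, wq1, w1, w2, wx]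
    by_cases vq1 : v = z d1
    · rw [vq1, wq1, w1, w2, wx, wq2]
    have hfix : w v = v := by
      rw [hw']
      by_cases hv : v ∈ S
      · rw [hzf v hv v1 v2 v3]
        have k1 : t⁻¹ v ≠ d1 := fun h => v2 (by rw [← htt v, h, t1])
        have k2 : t⁻¹ v ≠ d2 := fun h => vx (by rw [← htt v, h, hx])
        have k3 : t⁻¹ v ≠ d3 := fun h => vy (by rw [← htt v, h, hy])
        rw [hzf _ (hS' _ hv) k1 k2 k3, htt]
      · have hzv : z v ∉ S := by
          intro h
          have k1 : z v ≠ d1 := fun h' => vq1 (by rw [← h', hz])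
          have k2 : z v ≠ d2 := fun h' => vq2 (by rw [← h', hz])
          have k3 : z v ≠ d3 := fun h' => vq3 (by rw [← h', hz])
          have k4 := hzf _ h k1 k2 k3
          rw [hz] at k4
          exact hv (k4 ▸ h)
        rw [hout' _ hzv, hz, hout _ hv]
    rw [hfix, hfix, hfix, hfix, hfix]
  rw [← hw, key]
  exact Perm.isThreeCycle_swap_mul_swap_same e1 e2 e3

lemma crt_one (L n : ℕ) : ∃ N, (∀ s, s ≠ 0 → s ≤ n → Nat.Coprime L s → s ∣ N) ∧
    N ≡ 1 [MOD L] := by
  have hco : Nat.Coprime (∏ s ∈ (Finset.range (n + 1)).filter (fun s => s ≠ 0 ∧ Nat.Coprime L s), s)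
      L := by
    apply Nat.Coprime.symm
    apply Nat.Coprime.prod_right
    intro s hs
    exact (Finset.mem_filter.1 hs).2.2
  refine ⟨Nat.chineseRemainder hco 0 1, ?_, (Nat.chineseRemainder hco 0 1).2.2⟩
  intro s hs0 hsn hs
  have h1 := (Nat.modEq_zero_iff_dvd).1 (Nat.chineseRemainder hco 0 1).2.1
  refine dvd_trans ?_ h1
  exact Finset.dvd_prod_of_mem (fun s => s) (Finset.mem_filter.2
    ⟨Finset.mem_range.2 (by omega), hs0, hs⟩)

/-- The central path. -/
lemma path_setup (ha : ∀ j, j + 1 < k → a j ≠ a (j + 1)) (r : ℕ) (hr : 2 ≤ r) (hrk : r < k)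
    (hrun : ∀ j < r, a j = a 0 ∨ a j = a 1) (hend : a r ≠ a 0 ∧ a r ≠ a 1) :
    ∃ p : ℕ → V k, p 1 = none ∧ (∀ i < r + 2, ∀ j < r + 2, p i = p j → i = j) ∧
      (∀ i, i + 1 < r + 2 → Even i → rho k a (a 1) (p i) = p (i + 1)) ∧
      (∀ i, i + 1 < r + 2 → Odd i → rho k a (a 0) (p i) = p (i + 1)) ∧
      rho k a (a 0) (p 0) = p 0 ∧ (Even r → rho k a (a 0) (p (r + 1)) = p (r + 1)) ∧
      (Odd r → rho k a (a 1) (p (r + 1)) = p (r + 1)) ∧
      (∀ i, 2 ≤ i → i ≤ r → rho k a (a r) (p i) = p i) ∧
      (∀ i < r + 2, rho k a (a r) (p 0) ≠ p i) ∧ (∀ i < r + 2, rho k a (a r) (p 1) ≠ p i) ∧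
      (∀ i < r + 2, rho k a (a r) (p (r + 1)) ≠ p i) := by
  have hk0 : 0 < k := by omega
  have hk1 : 1 < k := by omega
  have h01 : a 0 ≠ a 1 := ha 0 (by omega)
  have hcol : ∀ j, (2 * j < r → a (2 * j) = a 0) ∧ (2 * j + 1 < r → a (2 * j + 1) = a 1) := by
    intro j
    induction j with
    | zero => exact ⟨fun _ => rfl, fun _ => rfl⟩
    | succ j ih =>
      have c1 : 2 * (j + 1) < r → a (2 * (j + 1)) = a 0 := by
        intro h
        have h1 := ih.2 (by omega)
        have h2 := ha (2 * j + 1) (by omega)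
        rcases hrun _ h with h3 | h3
        · exact h3
        · exfalso; apply h2; rw [h1]; exact h3.symm
      refine ⟨c1, fun h => ?_⟩
      have h1 := c1 (by omega)
      have h2 := ha (2 * (j + 1)) (by omega)
      rcases hrun _ h with h3 | h3
      · exfalso; apply h2; rw [h1]; exact h3.symm
      · exact h3
  have hz : a r = a 1 + (a 1 - a 0) := by
    have : ∀ x y z : ZMod 3, x ≠ y → z ≠ x → z ≠ y → z = y + (y - x) := by decide
    exact this _ _ _ h01 hend.1 hend.2
  obtain ⟨δ, hδ⟩ : ∃ δ, δ = a 1 - a 0 := ⟨_, rfl⟩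
  have hδ0 : δ ≠ 0 := fun h => h01 (sub_eq_zero.1 (hδ ▸ h)).symm
  obtain ⟨p, hp⟩ : ∃ p : ℕ → V k, p = fun i => if i = 0 then some (δ, ⟨0, hk0⟩) else
      if i = 1 then none else if h : i - 2 < k then some (0, ⟨i - 2, h⟩) else none := ⟨_, rfl⟩
  have p0 : p 0 = some (δ, ⟨0, hk0⟩) := by rw [hp]; rfl
  have p1 : p 1 = none := by rw [hp]; rfl
  have p2 : ∀ i (h : i < k), p (i + 2) = some (0, ⟨i, h⟩) := by
    intro i h
    rw [hp]
    simp [h]
  have hedge : ∀ i (h : i + 1 < k), rho k a (a (i + 1)) (p (i + 2)) = p (i + 3) := by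
    intro i h
    have h1 := rho_par ha 0 (⟨i + 1, h⟩ : Fin k)
    rw [par_succ (i := ⟨i, by omega⟩) rfl] at h1
    rw [p2 i (by omega), p2 (i + 1) h]
    simpa using h1
  have z0 : rho k a (a r) (p 0) = some (δ, ⟨1, hk1⟩) := by
    have h1 := rho_par ha δ (⟨1, hk1⟩ : Fin k)
    rw [par_succ (i := ⟨0, hk0⟩) rfl] at h1
    simp only at h1
    rw [hz, ← hδ, p0]
    exact h1
  have z1 : rho k a (a r) (p 1) = some (a r - a 0, ⟨0, hk0⟩) := by
    rw [p1, rho_none ha hk0]
  have zL : rho k a (a r) (p (r + 1)) = some (0, ⟨r, hrk⟩) := by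
    obtain ⟨s, rfl⟩ : ∃ s, r = s + 1 := ⟨r - 1, by omega⟩
    have h1 := hedge s hrk
    rw [show s + 1 + 1 = s + 2 by ring, h1]
    exact p2 (s + 1) hrk
  have pcase : ∀ i < r + 2, p i = some (δ, ⟨0, hk0⟩) ∨ p i = none ∨
      ∃ j : Fin k, j.val < r ∧ p i = some (0, j) := by
    intro i hi
    rcases i with _ | _ | i
    · left; exact p0
    · right; left; exact p1
    · right; right
      exact ⟨⟨i, by omega⟩, by simp only; omega, p2 i (by omega)⟩
  refine ⟨p, p1, ?_, ?_, ?_, ?_, ?_, ?_, ?_, ?_, ?_, ?_⟩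
  · intro i hi j hj hij
    rcases i with _ | _ | i <;> rcases j with _ | _ | j
    · rfl
    · rw [p0, p1] at hij; simp at hij
    · rw [p0, p2 j (by omega)] at hij
      simp only [Option.some.injEq, Prod.mk.injEq] at hij
      exact absurd hij.1 hδ0
    · rw [p0, p1] at hij; simp at hij
    · rfl
    · rw [p1, p2 j (by omega)] at hij; simp at hij
    · rw [p0, p2 i (by omega)] at hij
      simp only [Option.some.injEq, Prod.mk.injEq] at hij
      exact absurd hij.1.symm hδ0
    · rw [p1, p2 i (by omega)] at hij; simp at hij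
    · rw [p2 i (by omega), p2 j (by omega)] at hij
      simp only [Option.some.injEq, Prod.mk.injEq, Fin.mk.injEq, true_and] at hij
      omega
  · intro i hi hev
    obtain ⟨j, rfl⟩ := even_iff_exists_two_mul.1 hev
    rcases j with _ | j
    · have h1 := rho_some ha δ (⟨0, hk0⟩ : Fin k)
      rw [par_zero rfl] at h1
      simp only at h1
      rw [show a 0 + δ = a 1 by rw [hδ]; ring] at h1
      simpa [p0, p1] using h1
    · have h1 := hedge (2 * j) (by omega)
      rw [(hcol j).2 (by omega)] at h1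
      exact h1
  · intro i hi hodd
    obtain ⟨j, rfl⟩ := hodd
    rcases j with _ | j
    · have h1 := p2 0 hk0
      rw [show 2 * 0 + 1 = 1 by rfl, p1, rho_none ha hk0, sub_self]
      exact h1.symm
    · have h1 := hedge (2 * j + 1) (by omega)
      have h2 := (hcol (j + 1)).1 (by omega)
      rw [show 2 * j + 1 + 1 = 2 * (j + 1) by ring, h2] at h1
      exact h1
  · rw [p0]
    apply rho_fix
    · intro h1
      apply hδ0
      simp only at h1
      linear_combination -h1
    · intro _ h1
      apply hend.1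
      rw [hz, ← hδ]
      exact h1.symm
  · rintro hev
    obtain ⟨i, rfl⟩ : ∃ i, r = 2 * i + 1 + 1 := by
      obtain ⟨j, hj⟩ := even_iff_exists_two_mul.1 hev
      exact ⟨j - 1, by omega⟩
    rw [p2 (2 * i + 1) (by omega)]
    apply rho_fix
    · simp only [add_zero]
      rw [(hcol i).2 (by omega)]
      exact h01
    · intro _
      simp only [add_zero]
      exact hend.1.symm
  · rintro ⟨i, rfl⟩
    rw [p2 (2 * i) (by omega)]
    apply rho_fix
    · simp only [add_zero]
      rw [(hcol i).1 (by omega)]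
      exact h01.symm
    · intro _
      simp only [add_zero]
      exact hend.2.symm
  · intro i h1 h2
    obtain ⟨s, rfl⟩ : ∃ s, i = s + 2 := ⟨i - 2, by omega⟩
    rw [p2 s (by omega)]
    apply rho_fix
    · simp only [add_zero]
      rcases hrun s (by omega) with h3 | h3 <;> rw [h3]
      · exact hend.1
      · exact hend.2
    · intro _
      simp only [add_zero]
      rcases hrun (s + 1) (by omega) with h3 | h3 <;> rw [h3]
      · exact hend.1
      · exact hend.2
  · intro i hi
    rw [z0]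
    rcases pcase i hi with h1 | h1 | ⟨j, _, h1⟩ <;> rw [h1]
    · simp
    · simp
    · simp [hδ0]
  · intro i hi
    rw [z1]
    have e1 : a r - a 0 ≠ δ := fun h1 => hend.2 (by rw [hδ] at h1; linear_combination h1)
    have e2 : a r - a 0 ≠ 0 := fun h1 => hend.1 (sub_eq_zero.1 h1)
    rcases pcase i hi with h1 | h1 | ⟨j, _, h1⟩ <;> rw [h1]
    · simp [e1]
    · simp
    · simp [e2]
  · intro i hi
    rw [zL]
    rcases pcase i hi with h1 | h1 | ⟨j, hj, h1⟩ <;> rw [h1]
    · simp [hδ0.symm]
    · simp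
    · intro h2
      simp only [Option.some.injEq, Prod.mk.injEq, true_and] at h2
      rw [← h2] at hj
      simp at hj

/-- The second criterion. -/
theorem alternating_odd (ha : ∀ j, j + 1 < k → a j ≠ a (j + 1)) (r : ℕ) (hr : 3 ≤ r) (hrk : r < k)
    (hrun : ∀ j < r, a j = a 0 ∨ a j = a 1) (hend : a r ≠ a 0 ∧ a r ≠ a 1)
    (m : ℕ) (hm : Odd m) (hL : r + 2 = m ∨ r + 2 = 2 * m)
    (hcomp : ∀ v : V k, v ∉ orbit (Subgroup.closure {rho k a (a 0), rho k a (a 1)}) (none : V k) →
      Nat.Coprime m (Nat.card (orbit (Subgroup.closure {rho k a (a 0), rho k a (a 1)}) v))) :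
    alternatingGroup (V k) ≤ G k a := by
  classical
  have hk0 : 0 < k := by omega
  have h01 : a 0 ≠ a 1 := ha 0 (by omega)
  obtain ⟨p, p1, inj, E0, E1, A0, Ale, Blo, zf, z0, z1, zL⟩ :=
    path_setup ha r (by omega) hrk hrun hend
  obtain ⟨A, hA⟩ : ∃ A, A = rho k a (a 0) := ⟨_, rfl⟩
  obtain ⟨B, hB⟩ : ∃ B, B = rho k a (a 1) := ⟨_, rfl⟩
  obtain ⟨z, hzd⟩ : ∃ z, z = rho k a (a r) := ⟨_, rfl⟩
  rw [← hA] at E1 A0 Ale
  rw [← hB] at E0 Blo
  rw [← hzd] at zf z0 z1 zL
  rw [← hA, ← hB] at hcomp
  have iA : ∀ v, A (A v) = v := by rw [hA]; exact involutive ha hk0 _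
  have iB : ∀ v, B (B v) = v := by rw [hB]; exact involutive ha hk0 _
  have iz : ∀ v, z (z v) = v := by rw [hzd]; exact involutive ha hk0 _
  have E0' : ∀ i, i + 1 < r + 2 → Even i → B (p (i + 1)) = p i := fun i h1 h2 => by
    rw [← E0 i h1 h2, iB]
  have E1' : ∀ i, i + 1 < r + 2 → Odd i → A (p (i + 1)) = p i := fun i h1 h2 => by
    rw [← E1 i h1 h2, iA]
  obtain ⟨S, hS⟩ : ∃ S : Set (V k), S = p '' Set.Iio (r + 2) := ⟨_, rfl⟩
  have memS : ∀ i < r + 2, p i ∈ S := fun i hi => hS ▸ ⟨i, hi, rfl⟩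
  have hcentral : orbit (Subgroup.closure {A, B}) (none : V k) = S := by
    apply Set.Subset.antisymm
    · apply orbit_subset A B iA iB
      · rw [hS]
        rintro _ ⟨i, hi, rfl⟩
        have hi' : i < r + 2 := hi
        rw [← hS]
        rcases i with _ | i
        · rw [A0]; exact memS 0 (by omega)
        rcases Nat.even_or_odd i with he | ho
        · -- `i + 1` odd
          by_cases h2 : i + 1 = r + 1
          · have : r = i := by omega
            subst this
            rw [Ale he]; exact memS _ hi'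
          · rw [E1 (i + 1) (by omega) he.add_one]; exact memS _ (by omega)
        · rw [E1' i hi' ho]; exact memS _ (by omega)
      · rw [hS]
        rintro _ ⟨i, hi, rfl⟩
        have hi' : i < r + 2 := hi
        rw [← hS]
        rcases i with _ | i
        · rw [E0 0 (by omega) (by simp)]; exact memS _ (by omega)
        rcases Nat.even_or_odd i with he | ho
        · rw [E0' i hi' he]; exact memS _ (by omega)
        · by_cases h2 : i + 1 = r + 1
          · have : r = i := by omega
            subst this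
            rw [Blo ho]; exact memS _ hi'
          · rw [E0 (i + 1) (by omega) ho.add_one]; exact memS _ (by omega)
      · rw [← p1]; exact memS 1 (by omega)
    · have hmA : A ∈ Subgroup.closure {A, B} := Subgroup.subset_closure (by simp)
      have hmB : B ∈ Subgroup.closure {A, B} := Subgroup.subset_closure (by simp)
      have hst : ∀ g ∈ Subgroup.closure {A, B}, ∀ v ∈ orbit (Subgroup.closure {A, B})
          (none : V k), g v ∈ orbit (Subgroup.closure {A, B}) (none : V k) := by
        rintro g hg _ ⟨⟨g', hg'⟩, rfl⟩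
        exact ⟨⟨g * g', Subgroup.mul_mem _ hg hg'⟩, rfl⟩
      have hpos : ∀ i, i + 1 < r + 2 → p (i + 1) ∈ orbit (Subgroup.closure {A, B}) (none : V k) := by
        intro i
        induction i with
        | zero => intro _; rw [Nat.zero_add, p1]; exact mem_orbit_self _
        | succ i ih =>
          intro h
          have h1 := ih (by omega)
          rcases Nat.even_or_odd i with he | ho
          · rw [← E1 (i + 1) h he.add_one]; exact hst A hmA _ h1
          · rw [← E0 (i + 1) h ho.add_one]; exact hst B hmB _ h1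
      rw [hS]
      rintro _ ⟨i, hi, rfl⟩
      have hi' : i < r + 2 := hi
      rcases i with _ | i
      · rw [← E0' 0 (by omega) (by simp)]
        exact hst B hmB _ (hpos 0 (by omega))
      · exact hpos i hi'
  have hcard : Nat.card (orbit (Subgroup.closure {A, B}) (p 0)) = r + 2 := by
    have h1 : p 0 ∈ orbit (Subgroup.closure {A, B}) (none : V k) := by
      rw [hcentral]; exact memS 0 (by omega)
    rw [orbit_eq_iff.2 h1, hcentral, hS, Nat.card_coe_set_eq, Set.InjOn.ncard_image]
    · rw [← Finset.coe_Iio, Set.ncard_coe_finset, Nat.card_Iio]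
    · intro i hi j hj hij
      exact inj i hi j hj hij
  have horb0 : orbit (Subgroup.closure {A, B}) (p 0) = S := by
    rw [← hcentral]
    exact orbit_eq_iff.2 (by rw [hcentral]; exact memS 0 (by omega))
  have hper : ∀ v ∈ S, ((A * B) ^ (r + 2)) v = v := by
    intro v hv
    exact comp_power A B iA iB (p 0) (Or.inl A0) (r + 2) (by rw [hcard]) v (by rw [horb0]; exact hv)
  have hmod : ∀ N, ∀ v ∈ S, ((A * B) ^ N) v = ((A * B) ^ (N % (r + 2))) v := by
    intro N v hv
    have h1 : ∀ q, ((A * B) ^ ((r + 2) * q)) v = v := by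
      intro q
      rw [pow_mul]
      induction q with
      | zero => simp
      | succ q ih => rw [pow_succ, Perm.mul_apply, hper v hv, ih]
    conv_lhs => rw [← Nat.mod_add_div N (r + 2)]
    rw [pow_add, Perm.mul_apply, h1]
  obtain ⟨n, hn⟩ : ∃ n, n = Nat.card (V k) := ⟨_, rfl⟩
  obtain ⟨N, hN1, hN2⟩ := crt_one m n
  obtain ⟨t, ht⟩ : ∃ t, t = (A * B) ^ N := ⟨_, rfl⟩
  have tout : ∀ v, v ∉ S → t v = v := by
    intro v hv
    rcases v with _ | ⟨u, j⟩
    · exact absurd (p1 ▸ memS 1 (by omega)) hv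
    have hnot : (some (u, j) : V k) ∉ orbit (Subgroup.closure {A, B}) (none : V k) := by
      rw [hcentral]; exact hv
    obtain ⟨q, hq1, hq2⟩ := endpoint ha (a 0) (a 1) h01 u (k - 1 - j.val) j (by omega)
    rw [← hA, ← hB] at hq1 hq2
    have h1 := hcomp _ hnot
    rw [orbit_eq_iff.2 hq1] at h1
    rw [ht]
    apply comp_power A B iA iB q hq2 _ _ _ hq1
    apply hN1 _ _ _ h1
    · have : Nonempty (orbit (Subgroup.closure {A, B}) q) := ⟨⟨q, mem_orbit_self _⟩⟩
      exact Nat.card_pos.ne'
    · rw [hn]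
      exact Nat.card_le_card_of_injective (fun x : orbit (Subgroup.closure {A, B}) q => x.1)
        Subtype.val_injective
  have hn2 : 2 ≤ n := by
    rw [hn]
    have : Nontrivial (V k) := ⟨none, some (0, ⟨0, hk0⟩), by simp⟩
    exact Finite.one_lt_card
  have zf' : ∀ v ∈ S, v ≠ p 0 → v ≠ p 1 → v ≠ p (r + 1) → z v = v := by
    intro v hv h1 h2 h3
    rw [hS] at hv
    obtain ⟨i, hi, rfl⟩ := hv
    have hi' : i < r + 2 := hi
    have i0 : i ≠ 0 := fun h => h1 (by rw [h])
    have i1 : i ≠ 1 := fun h => h2 (by rw [h])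
    have iL : i ≠ r + 1 := fun h => h3 (by rw [h])
    exact zf i (by omega) (by omega)
  have zS : ∀ w, (∀ i < r + 2, w ≠ p i) → w ∉ S := by
    intro w hw h
    rw [hS] at h
    obtain ⟨i, hi, h1⟩ := h
    exact hw i hi h1.symm
  have pne : ∀ i j, i < r + 2 → j < r + 2 → i ≠ j → p i ≠ p j := fun i j hi hj hij h =>
    hij (inj i hi j hj h)
  -- the powers `A B` and the values on three vertices
  have s0 : (A * B) (p 0) = p 2 := by
    rw [Perm.mul_apply, E0 0 (by omega) (by simp)]
    exact E1 1 (by omega) (by simp)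
  have s1 : (A * B) (p 1) = p 0 := by
    have h1 := E0' 0 (by omega) (by simp)
    rw [Nat.zero_add] at h1
    rw [Perm.mul_apply, h1, A0]
  have hfinal : ∀ d1 d2 d3 x : ℕ, ∀ y : ℕ, (d1 = 0 ∨ d1 = 1 ∨ d1 = r + 1) →
      (d2 = 0 ∨ d2 = 1 ∨ d2 = r + 1) → (d3 = 0 ∨ d3 = 1 ∨ d3 = r + 1) → d1 ≠ d2 → d1 ≠ d3 →
      d2 ≠ d3 → x < r + 2 → y < r + 2 → x ≠ d1 → x ≠ d3 → y ≠ d1 → y ≠ d3 →
      t (p d1) = p d2 → t (p d2) = p x → t (p d3) = p y → alternatingGroup (V k) ≤ G k a := by
    intro d1 d2 d3 x y c1 c2 c3 n12 n13 n23 hx hy x1 x3 y1 y3 t1 t2 t3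
    have b1 : d1 < r + 2 := by omega
    have b2 : d2 < r + 2 := by omega
    have b3 : d3 < r + 2 := by omega
    have zz : ∀ d, (d = 0 ∨ d = 1 ∨ d = r + 1) → z (p d) ∉ S := by
      rintro d (rfl | rfl | rfl)
      · exact zS _ z0
      · exact zS _ z1
      · exact zS _ zL
    have h5 := abstract_five S z t iz (p d1) (p d2) (p d3) (memS _ b1) (memS _ b2) (memS _ b3)
      tout (by
        intro v hv v1 v2 v3
        apply zf' v hv
        · rintro rfl
          have : d1 = 0 ∨ d2 = 0 ∨ d3 = 0 := by omega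
          rcases this with h | h | h
          · exact v1 (by rw [h])
          · exact v2 (by rw [h])
          · exact v3 (by rw [h])
        · rintro rfl
          have : d1 = 1 ∨ d2 = 1 ∨ d3 = 1 := by omega
          rcases this with h | h | h
          · exact v1 (by rw [h])
          · exact v2 (by rw [h])
          · exact v3 (by rw [h])
        · rintro rfl
          have : d1 = r + 1 ∨ d2 = r + 1 ∨ d3 = r + 1 := by omega
          rcases this with h | h | h
          · exact v1 (by rw [h])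
          · exact v2 (by rw [h])
          · exact v3 (by rw [h]))
      (zz _ c1) (zz _ c2) (zz _ c3) (pne _ _ b1 b2 n12) (pne _ _ b1 b3 n13) (pne _ _ b2 b3 n23)
      t1 (by rw [t2]; exact pne _ _ hx b1 x1) (by rw [t2]; exact pne _ _ hx b3 x3)
      (by rw [t3]; exact pne _ _ hy b1 y1) (by rw [t3]; exact pne _ _ hy b3 y3)
    have mA : A ∈ G k a := hA ▸ rho_mem _
    have mB : B ∈ G k a := hB ▸ rho_mem _
    have mz : z ∈ G k a := hzd ▸ rho_mem _
    have mt : t ∈ G k a := ht ▸ (G k a).pow_mem ((G k a).mul_mem mA mB) _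
    exact Perm.alternatingGroup_le_of_isPreprimitive_of_isThreeCycle_mem (primitive hk0 ha) h5
      ((G k a).pow_mem ((G k a).mul_mem ((G k a).mul_mem ((G k a).mul_mem mt mz)
        ((G k a).inv_mem mt)) mz) 5)
  rcases hL with hL | hL
  · -- `r + 2 = m` odd
    have hro : Odd r := by
      obtain ⟨q, hq⟩ := hm
      exact ⟨q - 1, by omega⟩
    have hNm : N % (r + 2) = 1 := by
      have h1 : N % m = 1 % m := hN2
      rw [hL, h1, Nat.mod_eq_of_lt (by omega)]
    have hts : ∀ v ∈ S, t v = (A * B) v := by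
      intro v hv
      rw [ht, hmod N v hv, hNm, pow_one]
    have sL : (A * B) (p (r + 1)) = p r := by
      rw [Perm.mul_apply, Blo hro]
      exact E1' r (by omega) hro
    exact hfinal 1 0 (r + 1) 2 r (by omega) (by omega) (by omega) (by omega) (by omega) (by omega)
      (by omega) (by omega) (by omega) (by omega) (by omega) (by omega)
      (by rw [hts _ (memS _ (by omega)), s1]) (by rw [hts _ (memS _ (by omega)), s0])
      (by rw [hts _ (memS _ (by omega)), sL])
  · -- `r + 2 = 2 m`
    have hre : Even r := ⟨m - 1, by omega⟩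
    obtain ⟨q, hq⟩ := hm
    have hN2' : 2 ∣ N := hN1 2 (by norm_num) hn2 (by
      rw [Nat.coprime_two_right]; exact ⟨q, hq⟩)
    have hNm : N % (r + 2) = m + 1 := by
      have h1 : N ≡ m + 1 [MOD m] := by
        have h2 : m + 1 ≡ 0 + 1 [MOD m] := Nat.ModEq.add_right 1 (by simp [Nat.ModEq])
        exact hN2.trans (by simp [Nat.ModEq])
      have h2 : N ≡ m + 1 [MOD 2] := by
        unfold Nat.ModEq
        omega
      have h3 : N ≡ m + 1 [MOD 2 * m] :=
        (Nat.modEq_and_modEq_iff_modEq_mul (by rw [Nat.coprime_two_left]; exact ⟨q, hq⟩)).1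
          ⟨h2, h1⟩
      rw [hL]
      have h4 : N % (2 * m) = (m + 1) % (2 * m) := h3
      rw [h4, Nat.mod_eq_of_lt (by omega)]
    have hrev : ∀ i < r + 2, ((A * B) ^ m) (p i) = p (r + 2 - 1 - i) := by
      intro i hi
      rw [hL]
      apply path_power m p A B
      · intro j hj; exact E0 (2 * j) (by omega) ⟨j, by ring⟩
      · intro j hj; exact E0' (2 * j) (by omega) ⟨j, by ring⟩
      · exact A0
      · intro j hj
        have h1 := Ale hre
        rwa [show r + 1 = 2 * j + 1 by omega] at h1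
      · intro j hj
        have h1 := E1 (2 * j + 1) (by omega) ⟨j, rfl⟩
        exact h1
      · intro j hj
        have h1 := E1' (2 * j + 1) (by omega) ⟨j, rfl⟩
        exact h1
      · omega
    have hts : ∀ v ∈ S, t v = ((A * B) ^ m) ((A * B) v) := by
      intro v hv
      rw [ht, hmod N v hv, hNm, pow_succ, Perm.mul_apply]
    have sL : (A * B) (p (r + 1)) = p (r - 1) := by
      rw [Perm.mul_apply, E0' r (by omega) hre]
      obtain ⟨r', rfl⟩ : ∃ r', r = r' + 1 := ⟨r - 1, by omega⟩
      have ho : Odd r' := by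
        rcases Nat.even_or_odd r' with h | h
        · exact absurd hre (by rw [Nat.not_even_iff_odd]; exact h.add_one)
        · exact h
      exact E1' r' (by omega) ho
    exact hfinal 1 (r + 1) 0 2 (r - 1) (by omega) (by omega) (by omega) (by omega) (by omega)
      (by omega) (by omega) (by omega) (by omega) (by omega) (by omega) (by omega)
      (by rw [hts _ (memS _ (by omega)), s1, hrev _ (by omega)]; congr 1)
      (by rw [hts _ (memS _ (by omega)), sL, hrev _ (by omega)]; congr 1; omega)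
      (by rw [hts _ (memS _ (by omega)), s0, hrev _ (by omega)]; congr 1)

/-- The second criterion in terms of the colour sequence. -/
theorem alternating_odd_runs (ha : ∀ j, j + 1 < k → a j ≠ a (j + 1)) (r : ℕ) (hr : 3 ≤ r)
    (hrk : r < k) (hrun : ∀ j < r, a j = a 0 ∨ a j = a 1) (hend : a r ≠ a 0 ∧ a r ≠ a 1)
    (m : ℕ) (hm : Odd m) (hL : r + 2 = m ∨ r + 2 = 2 * m)
    (hruns : ∀ s f, s + 2 ≤ f → f < k → (∀ i, s < i → i ≤ f → a i ≠ a s) →
      (f + 1 < k → a (f + 1) = a s) → Nat.Coprime m (f - s + 1)) :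
    alternatingGroup (V k) ≤ G k a := by
  apply alternating_odd ha r hr hrk hrun hend m hm hL
  intro v hv
  obtain ⟨s, f, h1, h2, h3, h4, h5⟩ := comp_card ha (by omega) (a 0) (a 1) (a r) (ha 0 (by omega))
    hend.1 hend.2 v hv
  rw [h5]
  by_cases h6 : s + 2 ≤ f
  · have := hruns s f h6 h2 h3 h4
    rwa [show f - s + 1 = f + 1 - s by omega] at this
  · have h7 : f + 1 - s = 1 ∨ f + 1 - s = 2 := by omega
    rcases h7 with h7 | h7 <;> rw [h7]
    · exact Nat.coprime_one_right _
    · exact Nat.coprime_two_right.2 hm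

/-! ### The result -/

/-- The colouring is admissible: `a j` is the colour of the edge number `j + 1` of `P_0`. -/
def Admissible (k : ℕ) (a : ℕ → ZMod 3) : Prop := ∀ j, j + 1 < k → a j ≠ a (j + 1)

/-- The first run: the first `r` edges of `P_0` have only two colours, `2 ≤ r < k`, and the next
edge has the third colour. -/
def FirstRun (k : ℕ) (a : ℕ → ZMod 3) (r : ℕ) : Prop :=
  2 ≤ r ∧ r < k ∧ (∀ j < r, a j = a 0 ∨ a j = a 1) ∧ a r ≠ a 0 ∧ a r ≠ a 1

/-- A later run of `m` edges: after an edge (number `s + 1`) there are `m ≥ 2` edges of `P_0` that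
all avoid the colour of that edge, and after them comes an edge of that colour or the end. -/
def LaterRun (k : ℕ) (a : ℕ → ZMod 3) (m : ℕ) : Prop :=
  2 ≤ m ∧ ∃ s, s + m < k ∧ (∀ i, s < i → i ≤ s + m → a i ≠ a s) ∧
    (s + m + 1 < k → a (s + m + 1) = a s)

lemma eq_alternating_or_top {α : Type*} [Fintype α] [DecidableEq α] (H : Subgroup (Perm α))
    (h : alternatingGroup α ≤ H) : H = alternatingGroup α ∨ H = ⊤ := by
  by_cases hs : ∀ g ∈ H, Perm.sign g = 1
  · left
    exact le_antisymm (fun g hg => Perm.mem_alternatingGroup.2 (hs g hg)) h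
  · right
    push Not at hs
    obtain ⟨g, hg, hg1⟩ := hs
    rw [eq_top_iff]
    intro x _
    rcases Int.units_eq_one_or (Perm.sign x) with hx | hx
    · exact h (Perm.mem_alternatingGroup.2 hx)
    · have h1 : Perm.sign g = -1 := (Int.units_eq_one_or _).resolve_left hg1
      have h2 : x * g⁻¹ ∈ H := by
        apply h
        rw [Perm.mem_alternatingGroup, map_mul, Perm.sign_inv, hx, h1]
        rfl
      have h3 := H.mul_mem h2 hg
      rwa [inv_mul_cancel_right] at h3

theorem result :
    (∀ (k : ℕ) (a : ℕ → ZMod 3), 1 ≤ k → Admissible k a →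
      Fintype.card (V k) = 3 * k + 1 ∧ IsPreprimitive (G k a) (V k)) ∧
    (∀ (k : ℕ) (a : ℕ → ZMod 3) (r : ℕ), Admissible k a → FirstRun k a r →
      ((∃ e, 2 ≤ e ∧ 2 ^ e ∣ r + 2 ∧ ∀ m, LaterRun k a m → ¬ 2 ^ e ∣ m + 1) ∨
        (∃ q, 1 < q ∧ Odd q ∧ (r + 2 = q ∨ r + 2 = 2 * q) ∧
          ∀ m, LaterRun k a m → Nat.Coprime q (m + 1))) →
      G k a = alternatingGroup (V k) ∨ G k a = ⊤) ∧
    (∀ (k : ℕ) (c d : ZMod 3), 3 ≤ k → d ≠ 0 →
      G k (fun j => c + j * d) = alternatingGroup (V k) ∨ G k (fun j => c + j * d) = ⊤) := by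
  refine ⟨fun k a hk ha => ⟨?_, primitive hk ha⟩, ?_, fun k c d hk hd =>
    eq_alternating_or_top _ (fan hk c d hd)⟩
  · simp [V, ZMod.card]
  · rintro k a r ha ⟨hr, hrk, hrun, hend⟩ h
    apply eq_alternating_or_top
    have conv : ∀ s f, s + 2 ≤ f → f < k → (∀ i, s < i → i ≤ f → a i ≠ a s) →
        (f + 1 < k → a (f + 1) = a s) → LaterRun k a (f - s) := by
      intro s f h1 h2 h3 h4
      have e : s + (f - s) = f := by omega
      refine ⟨by omega, s, by omega, ?_, ?_⟩
      · rw [e]; exact h3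
      · rw [e]; exact h4
    rcases h with ⟨e, he, her, hm⟩ | ⟨q, hq1, hq, hL, hm⟩
    · exact alternating_runs ha r hr hrk hrun hend e he her
        (fun s f h1 h2 h3 h4 => hm _ (conv s f h1 h2 h3 h4))
    · exact alternating_odd_runs ha r (by
        obtain ⟨u, hu⟩ := hq
        omega) hrk hrun hend q hq hL (fun s f h1 h2 h3 h4 => hm _ (conv s f h1 h2 h3 h4))

end Pool.Agent.Results.MP_db1bc6_al.Primitive
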